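import Mathlib
import Pool.Graph.R_seed8.R389.Brauer

/-!
# Brauer induction from the `p`-elementary subgroups, prime to `p`
-/

set_option autoImplicit false
set_option linter.unusedSectionVars false

namespace Pool.Agent.H37.Stk

open Pool.Agent.R389 Pool.Agent.H302R2 Pool.Agent.H302R3 Pool.Agent.H541R3.ART
  Pool.Agent.W446.AS MulAction

/-- There is a central element `c` of `G` such that `G / ⟨c⟩` is a `p`-group. For a prime number `p`
the finite groups of this kind are the `p`-elementary groups (the products of a cyclic group and a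
`p`-group); for `p = 1` the condition says that `G` is cyclic. -/
def IsElem (p : ℕ) (G : Type) [Group G] : Prop :=
  ∃ c ∈ Subgroup.center G, ∀ g : G, ∃ k : ℕ, g ^ (p ^ k) ∈ Subgroup.zpowers c

lemma IsElem.of_surjective {p : ℕ} {G G' : Type} [Group G] [Group G'] (f : G →* G')
    (hf : Function.Surjective f) (h : IsElem p G) : IsElem p G' := by
  obtain ⟨c, hc, h⟩ := h
  refine ⟨f c, ?_, ?_⟩
  · rw [Subgroup.mem_center_iff] at hc ⊢
    intro g
    obtain ⟨g, rfl⟩ := hf g
    rw [← map_mul, ← map_mul, hc]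
  · intro g
    obtain ⟨g, rfl⟩ := hf g
    obtain ⟨k, m, hm⟩ := h g
    refine ⟨k, m, ?_⟩
    simp only at hm ⊢
    rw [← map_zpow, hm, map_pow]

lemma IsElem.of_injective {p : ℕ} {W V : Type} [Group W] [Group V] (f : W →* V)
    (hf : Function.Injective f) (hV : IsElem p V) : IsElem p W := by
  obtain ⟨c, hc, hp⟩ := hV
  have hcyc : IsCyclic ((Subgroup.zpowers c).comap f) := by
    apply isCyclic_of_injective (f.subgroupComap (Subgroup.zpowers c))
    rintro ⟨x, hx⟩ ⟨y, hy⟩ hxy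
    apply Subtype.ext
    apply hf
    exact congrArg Subtype.val hxy
  obtain ⟨⟨c', hc'⟩, hgen⟩ := hcyc.exists_generator
  have hz : ∀ x : W, f x ∈ Subgroup.zpowers c → x ∈ Subgroup.zpowers c' := by
    intro x hx
    obtain ⟨k, hk⟩ := hgen ⟨x, hx⟩
    exact ⟨k, congrArg Subtype.val hk⟩
  refine ⟨c', ?_, fun u => ?_⟩
  · rw [Subgroup.mem_center_iff] at hc ⊢
    intro g
    apply hf
    rw [map_mul, map_mul]
    obtain ⟨m, hm⟩ := hc'
    simp only at hm
    rw [← hm]
    have h1 : c ^ m ∈ Subgroup.center V :=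
      (Subgroup.center V).zpow_mem (Subgroup.mem_center_iff.mpr hc) m
    exact Subgroup.mem_center_iff.mp h1 _
  · obtain ⟨k, hk⟩ := hp (f u)
    refine ⟨k, hz _ ?_⟩
    rw [map_pow]; exact hk

lemma IsElem.of_mulEquiv {p : ℕ} {W V : Type} [Group W] [Group V] (e : W ≃* V)
    (h : IsElem p W) : IsElem p V :=
  h.of_surjective e.toMonoidHom e.surjective

/-- cyclic groups are elementary -/
lemma IsElem.of_one {p : ℕ} {G : Type} [Group G] (h : IsElem 1 G) : IsElem p G := by
  obtain ⟨c, hc, h⟩ := h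
  refine ⟨c, hc, fun g => ⟨0, ?_⟩⟩
  obtain ⟨k, hk⟩ := h g
  rw [one_pow, pow_one] at hk
  rw [pow_zero, pow_one]
  exact hk

lemma IsElem.one_of_not_dvd {p : ℕ} (hp : p.Prime) {G : Type} [Group G] [Finite G]
    (hd : ¬ p ∣ Nat.card G) (h : IsElem p G) : IsElem 1 G := by
  obtain ⟨c, hc, h⟩ := h
  refine ⟨c, hc, fun g => ⟨0, ?_⟩⟩
  obtain ⟨k, hk⟩ := h g
  rw [one_pow, pow_one]
  have h1 : (p ^ k).Coprime (orderOf g) := by
    apply Nat.Coprime.pow_left
    rw [Nat.Prime.coprime_iff_not_dvd hp]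
    intro h2
    exact hd (h2.trans (orderOf_dvd_natCard g))
  obtain ⟨m, hm⟩ := exists_pow_eq_self_of_coprime h1
  rw [← hm]
  exact pow_mem hk m

lemma HypP.isElem {p : ℕ} (hp : p.Prime) {V : Type} [Group V] [Finite V]
    (hn : Group.IsNilpotent V) (h : HypP p V) : IsElem p V := by
  have : Fact p.Prime := ⟨hp⟩
  obtain ⟨c, hcop, hcn, hpw⟩ := h
  refine ⟨c, ?_, hpw⟩
  let C : Subgroup V := Subgroup.zpowers c
  have hCn : C.Normal := ⟨fun x hx u => conj_zpowers hcn u hx⟩
  have hQ : IsPGroup p (V ⧸ C) := by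
    intro q
    obtain ⟨u, rfl⟩ := QuotientGroup.mk_surjective q
    obtain ⟨k, hk⟩ := hpw u
    refine ⟨k, ?_⟩
    rw [← QuotientGroup.mk_pow]
    exact (QuotientGroup.eq_one_iff _).mpr hk
  obtain ⟨Q⟩ : Nonempty (Sylow p V) := inferInstance
  have hQC := sylow_sup hp C hQ Q
  have hQn : (Q : Subgroup V).Normal :=
    (Group.isNilpotent_of_finite_tfae (G := V)).out 0 3 rfl rfl |>.mp hn p ⟨hp⟩ Q
  have hdisj : Disjoint (Q : Subgroup V) C := by
    have h1 : (Nat.card (Q : Subgroup V)).Coprime (Nat.card C) := by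
      obtain ⟨n, hn⟩ := IsPGroup.iff_card.mp Q.isPGroup'
      rw [hn, Nat.card_zpowers]
      exact (Nat.Coprime.pow_right n hcop).symm
    exact Subgroup.disjoint_of_coprime_natCard h1
  rw [Subgroup.mem_center_iff]
  intro g
  obtain ⟨x, hx, k, hk, rfl⟩ := hQC g
  have h1 : x * c = c * x :=
    (Subgroup.commute_of_normal_of_disjoint _ _ hQn hCn hdisj x c hx
      (Subgroup.mem_zpowers c)).eq
  have h2 : k * c = c * k := by
    obtain ⟨m, rfl⟩ := hk
    exact ((Commute.refl c).zpow_left m).eq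
  rw [mul_assoc, h2, ← mul_assoc, h1, mul_assoc]

section

variable (p : ℕ) (G : Type) [Group G]

/-- the group generated by permutation characters of `p`-hyperelementary subgroups -/
def SolP : AddSubgroup (G → ℂ) :=
  AddSubgroup.closure {f | ∃ U : Subgroup G, HypP p U ∧ f = ind U (fun _ => 1)}

/-- generated by the characters induced from linear characters of `p`-elementary subgroups -/
def EL : AddSubgroup (G → ℂ) :=
  AddSubgroup.closure {f | ∃ (V : Subgroup G) (ψ : V →* ℂˣ), IsElem p V ∧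
    f = ind V (fun h => ((ψ h : ℂˣ) : ℂ))}

end

section sol

variable {p : ℕ} {G : Type} [Group G] [Finite G]

lemma count_mem {f : G → ℕ} (hf : HypPCount p f) :
    (fun g => (f g : ℂ)) ∈ SolP p G := by
  classical
  obtain ⟨X, _, _, hX, hfX⟩ := hf
  have : Fintype G := Fintype.ofFinite _
  have : Fintype X := Fintype.ofFinite _
  let mk : X → Quotient (orbitRel G X) := Quotient.mk _
  have h1 : (fun g => (f g : ℂ)) = ∑ ω : Quotient (orbitRel G X),
      ind (stabilizer G ω.out) (fun _ => (1 : ℂ)) := by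
    funext g
    rw [Finset.sum_apply]
    have h2 : (f g : ℂ) = ∑ x : X, if g • x = x then (1 : ℂ) else 0 := by
      rw [hfX, ← Finset.sum_filter, Finset.sum_const, nsmul_eq_mul, mul_one,
        Nat.card_eq_fintype_card, Fintype.card_subtype]
    rw [h2, ← Finset.sum_fiberwise_of_maps_to (s := Finset.univ) (t := Finset.univ)
      (g := mk) (fun _ _ => Finset.mem_univ _)]
    refine Finset.sum_congr rfl fun ω _ => ?_
    rw [ind_eq]
    have h3 : ∀ y : G, ext (stabilizer G ω.out) (fun _ => (1 : ℂ)) (y⁻¹ * g * y)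
        = (fun x : X => if g • x = x then (1 : ℂ) else 0) (y • ω.out) := by
      intro y
      have h4 : y⁻¹ * g * y ∈ stabilizer G ω.out ↔ g • y • ω.out = y • ω.out := by
        rw [mem_stabilizer_iff, mul_smul, mul_smul, inv_smul_eq_iff]
      simp only
      by_cases h : y⁻¹ * g * y ∈ stabilizer G ω.out
      · rw [ext_mem _ _ h, if_pos (h4.mp h)]
      · rw [ext_not _ _ h, if_neg (fun h' => h (h4.mpr h'))]
    rw [Finset.sum_congr rfl (fun y _ => h3 y)]
    have hmk : ∀ y : G, mk (y • ω.out) = ω := by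
      intro y
      have h5 : mk (y • ω.out) = mk ω.out := Quotient.sound (orbitRel_apply.mpr ⟨y, rfl⟩)
      rw [h5]; exact Quotient.out_eq ω
    rw [← Finset.sum_fiberwise_of_maps_to (s := (Finset.univ : Finset G))
      (t := Finset.univ.filter (fun x => mk x = ω)) (g := fun y => y • ω.out)
      (fun y _ => Finset.mem_filter.mpr ⟨Finset.mem_univ _, hmk y⟩), Finset.mul_sum]
    refine Finset.sum_congr rfl fun x hx => ?_
    have hx1 : mk x = mk ω.out := by
      rw [(Finset.mem_filter.mp hx).2]; exact (Quotient.out_eq ω).symm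
    obtain ⟨z, hz⟩ := orbitRel_apply.mp (Quotient.exact hx1)
    simp only at hz
    rw [Finset.sum_congr rfl (g := fun _ => if g • x = x then (1 : ℂ) else 0)
      (fun y hy => by rw [(Finset.mem_filter.mp hy).2]), Finset.sum_const, nsmul_eq_mul]
    have hcard : (Finset.univ.filter (fun y : G => y • ω.out = x)).card
        = Nat.card (stabilizer G ω.out) := by
      rw [← Fintype.card_subtype, ← Nat.card_eq_fintype_card]
      refine Nat.card_congr ⟨fun y => ⟨z⁻¹ * y, ?_⟩, fun s => ⟨z * s, ?_⟩, ?_, ?_⟩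
      · rw [mem_stabilizer_iff, mul_smul, y.2, ← hz, inv_smul_smul]
      · rw [mul_smul, mem_stabilizer_iff.mp s.2, hz]
      · intro y; apply Subtype.ext; simp
      · intro s; apply Subtype.ext; simp
    rw [hcard, ← mul_assoc, inv_mul_cancel₀ card_ne, one_mul]
  rw [h1]
  refine sum_mem fun ω _ => AddSubgroup.subset_closure ⟨_, hX ω.out, rfl⟩

/-- integral multiples of the trivial character -/
lemma exists_const (hp : p.Prime) :
    ∃ N : ℤ, ¬ (p : ℤ) ∣ N ∧ N • (fun _ => 1 : G → ℂ) ∈ SolP p G := by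
  classical
  have : Fintype G := Fintype.ofFinite _
  obtain ⟨F, hF, hF'⟩ := exists_all_prime_to (G := G) hp
  let Q : Polynomial ℤ := ∏ g : G, (Polynomial.X - Polynomial.C (F g : ℤ))
  refine ⟨Q.coeff 0, ?_, ?_⟩
  · rw [Polynomial.coeff_zero_eq_eval_zero, Polynomial.eval_prod]
    intro h
    obtain ⟨g, -, hg⟩ := (Prime.dvd_finsetProd_iff (Nat.prime_iff_prime_int.mp hp) _).mp h
    simp only [Polynomial.eval_sub, Polynomial.eval_X, Polynomial.eval_C, zero_sub,
      dvd_neg] at hg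
    exact hF' g (by exact_mod_cast hg)
  · have h1 : Q.coeff 0 • (fun _ => 1 : G → ℂ)
        = - ∑ i ∈ Finset.range Q.natDegree, Q.coeff (i + 1) • (fun g => ((F g ^ (i + 1) : ℕ) : ℂ)) := by
      funext x
      have h2 : Q.eval (F x : ℤ) = 0 := by
        rw [Polynomial.eval_prod]
        exact Finset.prod_eq_zero (Finset.mem_univ x) (by simp)
      rw [Polynomial.eval_eq_sum_range, Finset.sum_range_succ'] at h2
      have h3 : Q.coeff 0 = - ∑ i ∈ Finset.range Q.natDegree, Q.coeff (i + 1) * (F x : ℤ) ^ (i + 1) := by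
        rw [pow_zero, mul_one] at h2
        linarith
      simp only [Pi.smul_apply, Pi.neg_apply, Finset.sum_apply, zsmul_eq_mul, mul_one]
      rw [h3]
      push_cast
      rfl
    rw [h1]
    exact neg_mem (sum_mem fun i _ => zsmul_mem (count_mem (hF.pow i)) _)

/-- inducing from a subgroup -/
lemma ind_el (H : Subgroup G) {f : H → ℂ} (hf : f ∈ EL p H) : ind H f ∈ EL p G := by
  have h1 : EL p H ≤ (EL p G).comap (indHom H) := by
    rw [EL, AddSubgroup.closure_le]
    rintro f ⟨V, ψ, hV, rfl⟩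
    rw [SetLike.mem_coe, AddSubgroup.mem_comap, indHom_apply, ind_ind]
    refine AddSubgroup.subset_closure ⟨V.map H.subtype, ψ.comp
      (V.equivMapOfInjective H.subtype H.subtype_injective).symm.toMonoidHom, ?_, rfl⟩
    exact hV.of_mulEquiv (V.equivMapOfInjective H.subtype H.subtype_injective)
  exact h1 hf

/-- twisting by a linear character -/
lemma tw_el (lam : G →* ℂˣ) {f : G → ℂ} (hf : f ∈ EL p G) :
    (fun u => f u * ((lam u : ℂˣ) : ℂ)) ∈ EL p G := by
  have h1 : EL p G ≤ (EL p G).comap (twHom lam) := by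
    rw [EL, AddSubgroup.closure_le]
    rintro f ⟨V, ψ, hV, rfl⟩
    rw [SetLike.mem_coe, AddSubgroup.mem_comap]
    refine AddSubgroup.subset_closure ⟨V, ψ * lam.comp V.subtype, hV, ?_⟩
    funext g
    change ind V (fun h => ((ψ h : ℂˣ) : ℂ)) g * ((lam g : ℂˣ) : ℂ) = _
    rw [← ind_mul V (fun h => ((ψ h : ℂˣ) : ℂ)) (F := fun g => ((lam g : ℂˣ) : ℂ))
      (lin_conj lam) g]
    congr 1
  exact h1 hf

/-- nilpotent groups -/
lemma nil_el (hp : p.Prime) (hn : Group.IsNilpotent G) :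
    ∃ N : ℤ, ¬ (p : ℤ) ∣ N ∧ N • (fun _ => 1 : G → ℂ) ∈ EL p G := by
  obtain ⟨N, hN, h⟩ := exists_const (G := G) hp
  refine ⟨N, hN, ?_⟩
  have h1 : SolP p G ≤ EL p G := by
    rw [SolP, AddSubgroup.closure_le]
    rintro f ⟨U, hU, rfl⟩
    refine AddSubgroup.subset_closure ⟨U, 1, HypP.isElem hp inferInstance hU, ?_⟩
    simp
  exact h1 h

/-- **Brauer's induction theorem, prime to `p`** -/
theorem exists_el (hp : p.Prime) :
    ∃ N : ℤ, ¬ (p : ℤ) ∣ N ∧ N • (fun _ => 1 : G → ℂ) ∈ EL p G := by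
  have hpi : Prime (p : ℤ) := Nat.prime_iff_prime_int.mp hp
  let S : AddSubgroup (G → ℂ) :=
    { carrier := {f | ∃ N : ℤ, ¬ (p : ℤ) ∣ N ∧ N • f ∈ EL p G}
      zero_mem' := ⟨1, fun h => hpi.not_isUnit (isUnit_of_dvd_one h), by
        rw [smul_zero]; exact zero_mem _⟩
      add_mem' := by
        rintro a b ⟨N, hN, ha⟩ ⟨M, hM, hb⟩
        refine ⟨N * M, fun h => (hpi.dvd_or_dvd h).elim hN hM, ?_⟩
        have h1 : (N * M) • (a + b) = M • (N • a) + N • (M • b) := by
          rw [smul_add, mul_smul N M b, mul_comm N M, mul_smul M N a]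
        rw [h1]
        exact add_mem (zsmul_mem ha M) (zsmul_mem hb N)
      neg_mem' := by
        rintro a ⟨N, hN, ha⟩
        refine ⟨N, hN, ?_⟩
        rw [smul_neg]
        exact neg_mem ha }
  have h1 : PN G ≤ S := by
    rw [PN, AddSubgroup.closure_le]
    rintro f ⟨V, ψ, hV, rfl⟩
    obtain ⟨N, hN, h⟩ := nil_el (G := V) hp hV
    refine ⟨N, hN, ?_⟩
    have h2 := ind_el V (tw_el ψ h)
    have h3 : (fun u => (N • (fun _ => 1 : V → ℂ)) u * ((ψ u : ℂˣ) : ℂ))
        = N • (fun h => ((ψ h : ℂˣ) : ℂ)) := by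
      funext u
      simp
    rw [h3] at h2
    have h4 := map_zsmul (indHom V) N (fun h => ((ψ h : ℂˣ) : ℂ))
    rw [indHom_apply, indHom_apply] at h4
    rwa [h4] at h2
  exact h1 one_mem_pn

/-- **Artin's and Brauer's induction theorems, prime to `p`** -/
theorem exists_el' (hp : p.Prime ∨ p = 1) :
    ∃ N : ℤ, N ≠ 0 ∧ (p.Prime → ¬ (p : ℤ) ∣ N) ∧ N • (fun _ => 1 : G → ℂ) ∈ EL p G := by
  rcases hp with hp | rfl
  · obtain ⟨N, hN, h⟩ := exists_el (G := G) hp
    refine ⟨N, ?_, fun _ => hN, h⟩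
    rintro rfl
    exact hN (dvd_zero _)
  · obtain ⟨q, hq1, hq⟩ := Nat.exists_infinite_primes (Nat.card G + 1)
    obtain ⟨N, hN, h⟩ := exists_el (G := G) hq
    refine ⟨N, ?_, fun h => absurd h Nat.not_prime_one, ?_⟩
    · rintro rfl
      exact hN (dvd_zero _)
    have h1 : EL q G ≤ EL 1 G := by
      rw [EL, EL, AddSubgroup.closure_le]
      rintro f ⟨V, ψ, hV, rfl⟩
      refine AddSubgroup.subset_closure ⟨V, ψ, hV.one_of_not_dvd hq ?_, rfl⟩
      intro h2
      have h3 := Nat.le_of_dvd Nat.card_pos (h2.trans V.card_subgroup_dvd_card)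
      omega
    exact h1 h

/-- class functions -/
theorem exists_el_class (hp : p.Prime ∨ p = 1) {f : G → ℂ} (hf : ∀ g x : G, f (x * g * x⁻¹) = f g)
    (S : AddSubgroup (G → ℂ))
    (hS : ∀ (V : Subgroup G) (ψ : V →* ℂˣ), IsElem p V →
      ind V (fun h => ((ψ h : ℂˣ) : ℂ) * f h) ∈ S) :
    ∃ N : ℤ, N ≠ 0 ∧ (p.Prime → ¬ (p : ℤ) ∣ N) ∧ N • f ∈ S := by
  obtain ⟨N, hN0, hN, h⟩ := exists_el' (G := G) hp
  refine ⟨N, hN0, hN, ?_⟩
  let m : (G → ℂ) →+ (G → ℂ) := AddMonoidHom.mk' (fun u g => u g * f g) (fun a b => by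
    funext g
    change (a g + b g) * f g = a g * f g + b g * f g
    ring)
  have h1 : EL p G ≤ S.comap m := by
    rw [EL, AddSubgroup.closure_le]
    rintro u ⟨U, ψ, hU, rfl⟩
    rw [SetLike.mem_coe, AddSubgroup.mem_comap]
    have h2 := hS U ψ hU
    have h3 : m (ind U (fun h => ((ψ h : ℂˣ) : ℂ)))
        = ind U (fun h => ((ψ h : ℂˣ) : ℂ) * f h) := by
      funext g
      change ind U (fun h => ((ψ h : ℂˣ) : ℂ)) g * f g = _
      rw [← ind_mul U (fun h => ((ψ h : ℂˣ) : ℂ)) hf g]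
    rwa [h3]
  have h2 := h1 h
  rw [AddSubgroup.mem_comap] at h2
  have h3 : m (N • (fun _ => 1 : G → ℂ)) = N • f := by
    funext g
    change (N • (fun _ => 1 : G → ℂ)) g * f g = (N • f) g
    simp
  rwa [h3] at h2

end sol

end Pool.Agent.H37.Stk
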