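import Mathlib
import Pool.Graph.R_pool_sql_team_seeded_c8625f6e.K4H74.ST.Inv
import Pool.Agent.H37.Stk.Grp

/-!
# Families of number fields and inductive invariants of Artin characters: definitions
-/

set_option autoImplicit false
set_option linter.unusedSectionVars false

namespace Pool.Agent.H37.Stk

open NumberField Pool.Agent.K4H74.ST

/-- number fields -/
structure NF where
  /-- the field -/
  K : Type
  [fld : Field K]
  [nf : NumberField K]

attribute [instance] NF.fld NF.nf

/-- The invariant `A` is trivial on all characters of the Galois groups of all finite Galois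
extensions `L` of the number field `K`. -/
def TrivialOver {M : Type} [CommGroup M] (A : ArtinInvariant M) (K : Type) [Field K]
    [NumberField K] : Prop :=
  ∀ (L : Type) [Field L] [NumberField L] [Algebra K L] [IsGalois K L] (χ : (L ≃ₐ[K] L) → ℂ),
    IsChar χ → A.val K L χ = 1

/-- `M` has no element of order `ℓ` for the prime numbers `ℓ` outside `P` -/
def TorsionIn (P : Set ℕ) (M : Type) [CommGroup M] : Prop :=
  ∀ ℓ : ℕ, ℓ.Prime → ℓ ∉ P → ∀ x : M, x ^ ℓ = 1 → x = 1

/-- Every invariant with values in an abelian group whose torsion is in `P`, which is trivial over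
the number fields in `𝔉`, is trivial over all number fields. -/
def Suffices (P : Set ℕ) (𝔉 : Set NF) : Prop :=
  ∀ (M : Type) [CommGroup M], TorsionIn P M → ∀ A : ArtinInvariant M,
    (∀ F ∈ 𝔉, TrivialOver A F.K) → ∀ (K : Type) [Field K] [NumberField K], TrivialOver A K

/-- Every invariant with values in an abelian group whose torsion is in `P`, which is trivial over
the number fields in `𝔉`, is trivial on the trivial character of `ℚ`. -/
def SufficesQ (P : Set ℕ) (𝔉 : Set NF) : Prop :=
  ∀ (M : Type) [CommGroup M], TorsionIn P M → ∀ A : ArtinInvariant M,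
    (∀ F ∈ 𝔉, TrivialOver A F.K) → A.val ℚ ℚ (fun _ => 1) = 1

/-- the prime numbers in `P`, and `1` -/
def Adm (P : Set ℕ) (p : ℕ) : Prop := (p ∈ P ∧ p.Prime) ∨ p = 1

/-- all finite Galois extensions of the field `Ω` have a `p`-elementary Galois group (cyclic, for
`p = 1`) -/
def ProElem (p : ℕ) (Ω : Type) [Field Ω] : Prop :=
  ∀ (N : Type) [Field N] [Algebra Ω N] [FiniteDimensional Ω N] [IsGalois Ω N],
    IsElem p (N ≃ₐ[Ω] N)

/-- a field in `𝔉` is isomorphic to a subfield of `Ω` -/
def Meets (𝔉 : Set NF) (Ω : Type) [Field Ω] : Prop := ∃ F ∈ 𝔉, Nonempty (F.K →+* Ω)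

/-- the fixed fields of the `p`-elementary subgroups of the Galois group of `L` contain fields
in `𝔉` -/
def LevelOK (p : ℕ) (𝔉 : Set NF) (L : Type) [Field L] [Algebra ℚ L] : Prop :=
  ∀ E : Subgroup (L ≃ₐ[ℚ] L), IsElem p E → Meets 𝔉 (IntermediateField.fixedField E)

lemma Meets.mono {𝔉 : Set NF} {Ω Ω' : Type} [Field Ω] [Field Ω'] (h : Meets 𝔉 Ω) (i : Ω →+* Ω') :
    Meets 𝔉 Ω' := by
  obtain ⟨F, hF, ⟨j⟩⟩ := h
  exact ⟨F, hF, ⟨i.comp j⟩⟩

end Pool.Agent.H37.Stk
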