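import Mathlib
import Pool.Agent.H37.Stk.Def
import Pool.Graph.R_pool_sql_team_seeded_c8625f6e.K4H74.SC.Inst

/-!
# Invariants which are trivial over the fields of a family
-/

set_option autoImplicit false
set_option linter.unusedSectionVars false

namespace Pool.Agent.H37.Stk

open NumberField Pool.Agent.K4H74.ST Pool.Agent.K4H74.SC Pool.Agent.R389

/-- a number field, Galois over `ℚ`, which contains two given number fields -/
theorem exists_big (L L₀ : Type) [Field L] [NumberField L] [Field L₀] [NumberField L₀] :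
    ∃ (N : Type) (_ : Field N) (_ : NumberField N) (_ : IsGalois ℚ N), Nonempty (L →+* N) ∧
      Nonempty (L₀ →+* N) := by
  let Ω := AlgebraicClosure L
  have hΩ1 : Algebra.IsAlgebraic ℚ Ω := Algebra.IsAlgebraic.trans ℚ L Ω
  have hΩ2 : IsAlgClosure ℚ Ω := ⟨inferInstance, inferInstance⟩
  have hΩ : Normal ℚ Ω := IsAlgClosure.normal ℚ Ω
  let i : L →ₐ[ℚ] Ω := IsAlgClosed.lift
  let j : L₀ →ₐ[ℚ] Ω := IsAlgClosed.lift
  let F : IntermediateField ℚ Ω := i.fieldRange ⊔ j.fieldRange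
  have hF : FiniteDimensional ℚ F := by
    have h1 : FiniteDimensional ℚ i.fieldRange :=
      LinearMap.finiteDimensional_range i.toLinearMap
    have h2 : FiniteDimensional ℚ j.fieldRange :=
      LinearMap.finiteDimensional_range j.toLinearMap
    exact IntermediateField.finiteDimensional_sup _ _
  let N := IntermediateField.normalClosure ℚ F Ω
  have hN1 : Normal ℚ N := normalClosure.normal ℚ F Ω
  have hN2 : FiniteDimensional ℚ N := normalClosure.is_finiteDimensional ℚ F Ω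
  have hN3 : NumberField N := ⟨⟩
  have hFN : F ≤ N := IntermediateField.le_normalClosure F
  have hN5 : IsGalois ℚ N := ⟨⟩
  refine ⟨N, inferInstance, hN3, hN5, ⟨?_⟩, ⟨?_⟩⟩
  · exact ((IntermediateField.inclusion (le_sup_left.trans hFN)).comp
      i.rangeRestrict : L →ₐ[ℚ] N).toRingHom
  · exact ((IntermediateField.inclusion (le_sup_right.trans hFN)).comp
      j.rangeRestrict : L₀ →ₐ[ℚ] N).toRingHom

lemma IsChar.tw {G : Type} [Group G] {χ : G → ℂ} (h : IsChar χ) (ψ : G →* ℂˣ) :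
    IsChar (fun g => ((ψ g : ℂˣ) : ℂ) * χ g) := by
  obtain ⟨V, _, _, _, ρ, rfl⟩ := h
  let ρ' : Representation ℂ G V :=
    { toFun := fun g => ((ψ g : ℂˣ) : ℂ) • ρ g
      map_one' := by simp
      map_mul' := by
        intro a b
        rw [map_mul, map_mul, Units.val_mul, smul_mul_smul_comm] }
  refine ⟨V, inferInstance, inferInstance, inferInstance, ρ', ?_⟩
  funext g
  change ((ψ g : ℂˣ) : ℂ) * LinearMap.trace ℂ V (ρ g)
    = LinearMap.trace ℂ V (((ψ g : ℂˣ) : ℂ) • ρ g)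
  rw [map_smul, smul_eq_mul]

lemma IsChar.comp' {G G' : Type} [Group G] [Group G'] {χ : G → ℂ} (h : IsChar χ) (f : G' →* G) :
    IsChar (fun g => χ (f g)) := by
  obtain ⟨V, _, _, _, ρ, rfl⟩ := h
  exact ⟨V, inferInstance, inferInstance, inferInstance, ρ.comp f, rfl⟩

lemma IsChar.class {G : Type} [Group G] {χ : G → ℂ} (h : IsChar χ) (g x : G) :
    χ (x * g * x⁻¹) = χ g := by
  obtain ⟨V, _, _, _, ρ, rfl⟩ := h
  change LinearMap.trace ℂ V (ρ (x * g * x⁻¹)) = LinearMap.trace ℂ V (ρ g)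
  rw [map_mul, LinearMap.trace_mul_comm, ← map_mul]
  congr 2
  group

section

variable {M : Type} [CommGroup M] (A : ArtinInvariant M)

variable {K L : Type} [Field K] [NumberField K] [Field L] [NumberField L] [Algebra K L]
  [IsGalois K L]

lemma Val.nsmul {f : (L ≃ₐ[K] L) → ℂ} {v : M} (h : Val A K L f v) (n : ℕ) :
    Val A K L (n • f) (v ^ n) := by
  induction n with
  | zero =>
    rw [zero_smul, pow_zero]
    exact Val.zero A
  | succ n ih =>
    rw [add_smul, one_smul, pow_succ]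
    exact ih.add A h

lemma Val.zsmul {f : (L ≃ₐ[K] L) → ℂ} {v : M} (h : Val A K L f v) (n : ℤ) :
    Val A K L (n • f) (v ^ n) := by
  obtain ⟨m, rfl | rfl⟩ := n.eq_nat_or_neg
  · rw [natCast_zsmul, zpow_natCast]
    exact Val.nsmul A h m
  · rw [neg_smul, natCast_zsmul, zpow_neg, zpow_natCast]
    exact (Val.nsmul A h m).neg A

lemma val_ind_fixed (V : Subgroup (L ≃ₐ[K] L)) {f : V → ℂ} (hf : IsChar f) :
    A.val K L (ind V f) = A.val (IntermediateField.fixedField V) L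
      (fun g => f ((IntermediateField.subgroupEquivAlgEquiv V).symm g)) := by
  have hfin : FiniteDimensional K L := Module.Finite.of_restrictScalars_finite ℚ K L
  have hf' : IsChar (fun g => f ((IntermediateField.subgroupEquivAlgEquiv V).symm g)) :=
    IsChar.comp' hf (IntermediateField.subgroupEquivAlgEquiv V).symm.toMonoidHom
  rw [ind_fixed, A.val_ind K (IntermediateField.fixedField V) L _ hf']

/-- a character induced from a group whose fixed field contains a field of the family -/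
lemma val_ind_good {N : Type} [Field N] [NumberField N] [IsGalois ℚ N] {𝔉 : Set NF}
    (hA : ∀ F ∈ 𝔉, TrivialOver A F.K) (V : Subgroup (N ≃ₐ[ℚ] N))
    (hV : Meets 𝔉 (IntermediateField.fixedField V)) {f : V → ℂ} (hf : IsChar f) :
    A.val ℚ N (ind V f) = 1 := by
  obtain ⟨F, hF, ⟨j⟩⟩ := hV
  have hf' : IsChar (fun g => f ((IntermediateField.subgroupEquivAlgEquiv V).symm g)) :=
    IsChar.comp' hf (IntermediateField.subgroupEquivAlgEquiv V).symm.toMonoidHom
  rw [val_ind_fixed A V hf]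
  let K' := IntermediateField.fixedField V
  let _ : Algebra F.K K' := j.toAlgebra
  let _ : Algebra F.K N := ((algebraMap K' N).comp j).toAlgebra
  have h1 : IsScalarTower F.K K' N := IsScalarTower.of_algebraMap_eq fun x => rfl
  have h3 : IsGalois F.K N := IsGalois.tower_top_of_isGalois ℚ F.K N
  rw [← A.val_ind F.K K' N _ hf']
  exact hA F hF N _ (isChar_indChar hf')

/-- the values are torsion prime to `p` -/
theorem pow_val {p : ℕ} (hp : p.Prime ∨ p = 1) {𝔉 : Set NF}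
    (hA : ∀ F ∈ 𝔉, TrivialOver A F.K) (L₀ : Type) [Field L₀] [NumberField L₀] [IsGalois ℚ L₀]
    (h₀ : LevelOK p 𝔉 L₀) {χ : (L ≃ₐ[K] L) → ℂ} (hχ : IsChar χ) :
    ∃ n : ℤ, n ≠ 0 ∧ (p.Prime → ¬ (p : ℤ) ∣ n) ∧ A.val K L χ ^ n = 1 := by
  obtain ⟨N, _, _, _, ⟨i⟩, ⟨i₀⟩⟩ := exists_big L L₀
  let _ : Algebra L N := i.toAlgebra
  let _ : Algebra L₀ N := i₀.toAlgebra
  let _ : Algebra K N := ((algebraMap L N).comp (algebraMap K L)).toAlgebra
  have h1 : IsScalarTower K L N := IsScalarTower.of_algebraMap_eq fun x => rfl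
  have h2 : IsGalois K N := IsGalois.tower_top_of_isGalois ℚ K N
  rw [← A.val_infl K L N χ hχ]
  have hχ' : IsChar (fun g : N ≃ₐ[K] N => χ (AlgEquiv.restrictNormalHom L g)) :=
    IsChar.comp' hχ (AlgEquiv.restrictNormalHom L)
  rw [← A.val_ind ℚ K N _ hχ']
  have hf := isChar_indChar (K := ℚ) hχ'
  set f := indChar ℚ K N (fun g : N ≃ₐ[K] N => χ (AlgEquiv.restrictNormalHom L g)) with hfd
  have hfin : FiniteDimensional ℚ N := inferInstance
  obtain ⟨n, hn0, hn, hnf⟩ := exists_el_class (p := p) hp (f := f) (IsChar.class hf)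
    (TT A (K := ℚ) (L := N) ⊥) (by
      intro V ψ hV
      have h3 : IsChar (fun h : V => ((ψ h : ℂˣ) : ℂ) * f h) :=
        IsChar.tw (IsChar.comp' hf V.subtype) ψ
      rw [mem_TT_char A (isChar_ind V h3), Subgroup.mem_bot]
      apply val_ind_good A hA V _ h3
      let r : (N ≃ₐ[ℚ] N) →* (L₀ ≃ₐ[ℚ] L₀) := AlgEquiv.restrictNormalHom L₀
      have h4 : IsElem p (V.map r) :=
        hV.of_surjective (r.subgroupMap V) (r.subgroupMap_surjective V)
      refine (h₀ _ h4).mono ?_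
      refine RingHom.codRestrict ((algebraMap L₀ N).comp
        (algebraMap (IntermediateField.fixedField (V.map r)) L₀))
        (IntermediateField.fixedField V).toSubring ?_
      intro x
      rintro ⟨v, hv⟩
      change v (algebraMap L₀ N (x : L₀)) = algebraMap L₀ N (x : L₀)
      rw [← res_apply (K := ℚ)]
      have h5 := x.2 ⟨r v, ⟨v, hv, rfl⟩⟩
      exact congrArg (algebraMap L₀ N) h5)
  refine ⟨n, hn0, hn, ?_⟩
  obtain ⟨v, hv, h3⟩ := hnf
  rw [Subgroup.mem_bot] at hv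
  subst hv
  exact (Val.zsmul A (Val.of_char A hf) n).unique A h3

end

section

variable {M : Type} [CommGroup M]

/-- an element with no forbidden torsion -/
lemma eq_one_of_torsion {P : Set ℕ} (hM : TorsionIn P M) {x : M}
    (h1 : ∃ n : ℤ, n ≠ 0 ∧ x ^ n = 1)
    (h2 : ∀ p ∈ P, p.Prime → ∃ n : ℤ, ¬ (p : ℤ) ∣ n ∧ x ^ n = 1) : x = 1 := by
  obtain ⟨n, hn, hx⟩ := h1
  have hfin : IsOfFinOrder x := isOfFinOrder_iff_zpow_eq_one.mpr ⟨n, hn, hx⟩
  by_contra hne
  obtain ⟨ℓ, hℓ, hd⟩ := Nat.exists_prime_and_dvd (n := orderOf x)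
    (fun h => hne (orderOf_eq_one_iff.mp h))
  by_cases hP : ℓ ∈ P
  · obtain ⟨m, hm, hxm⟩ := h2 ℓ hP hℓ
    apply hm
    exact (Int.natCast_dvd_natCast.mpr hd).trans (orderOf_dvd_iff_zpow_eq_one.mpr hxm)
  · obtain ⟨k, hk⟩ := hd
    have h3 : x ^ k = 1 := by
      apply hM ℓ hℓ hP
      rw [← pow_mul, mul_comm, ← hk, pow_orderOf_eq_one]
    have h4 : orderOf x ∣ k := orderOf_dvd_of_pow_eq_one h3
    have h5 : 0 < orderOf x := hfin.orderOf_pos
    have h6 : 0 < k := by
      rcases Nat.eq_zero_or_pos k with h | h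
      · rw [h, mul_zero] at hk
        omega
      · exact h
    have h7 := Nat.le_of_dvd h6 h4
    rw [hk] at h7
    have := hℓ.two_le
    nlinarith

/-- **Sufficiency** -/
theorem suffices_of_level {P : Set ℕ} {𝔉 : Set NF}
    (h : ∀ p, Adm P p → ∃ (L : Type) (_ : Field L) (_ : NumberField L) (_ : IsGalois ℚ L),
      LevelOK p 𝔉 L) : Suffices P 𝔉 := by
  intro M _ hM A hA K _ _ L _ _ _ _ χ hχ
  apply eq_one_of_torsion hM
  · obtain ⟨L₀, _, _, _, h₀⟩ := h 1 (Or.inr rfl)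
    obtain ⟨n, h1, -, h2⟩ := pow_val A (Or.inr rfl) hA L₀ h₀ hχ
    exact ⟨n, h1, h2⟩
  · intro p hpP hp
    obtain ⟨L₀, _, _, _, h₀⟩ := h p (Or.inl ⟨hpP, hp⟩)
    obtain ⟨n, -, h1, h2⟩ := pow_val A (Or.inl hp) hA L₀ h₀ hχ
    exact ⟨n, h1 hp, h2⟩

/-- finitely many fields of the family -/
theorem exists_finite_level {p : ℕ} {𝔉 : Set NF} (L : Type) [Field L] [NumberField L]
    (h : LevelOK p 𝔉 L) : ∃ T ⊆ 𝔉, T.Finite ∧ LevelOK p T L := by
  have hfin : Finite (Subgroup (L ≃ₐ[ℚ] L)) := inferInstance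
  have h1 : ∀ E : {E : Subgroup (L ≃ₐ[ℚ] L) // IsElem p E}, ∃ F ∈ 𝔉,
      Nonempty (F.K →+* IntermediateField.fixedField E.1) := fun E => h E.1 E.2
  choose F hF hF' using h1
  refine ⟨Set.range F, ?_, Set.finite_range F, ?_⟩
  · rintro _ ⟨E, rfl⟩
    exact hF E
  · intro E hE
    exact ⟨F ⟨E, hE⟩, ⟨_, rfl⟩, hF' ⟨E, hE⟩⟩

end

end Pool.Agent.H37.Stk
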