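import Mathlib
import Pool.Agent.H37.Stk.Suf

/-!
# The invariants attached to automorphisms
-/

set_option autoImplicit false
set_option linter.unusedSectionVars false

namespace Pool.Agent.H37.Stk

open NumberField Pool.Agent.K4H74.ST Pool.Agent.K4H74.SC Pool.Agent.R389

section tv

variable {E : Type} [Field E] [CharZero E] (c : E ≃+* E)

/-- `c ∘ τ = τ ∘ g` -/
def Tw {K L : Type} [Field K] [Field L] [Algebra K L] (τ : L →+* E) (g : L ≃ₐ[K] L) : Prop :=
  ∀ x, c (τ x) = τ (g x)

lemma Tw.unique {K L : Type} [Field K] [Field L] [Algebra K L] {τ : L →+* E}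
    {g g' : L ≃ₐ[K] L} (h : Tw c τ g) (h' : Tw c τ g') : g = g' := by
  ext x
  apply τ.injective
  rw [← h x, h' x]

lemma Tw.conj {K L : Type} [Field K] [Field L] [Algebra K L] {τ : L →+* E}
    {g : L ≃ₐ[K] L} (x : L ≃ₐ[K] L) :
    Tw c τ (x * g * x⁻¹) ↔ Tw c (τ.comp (x : L →+* L)) g := by
  constructor
  · intro h y
    have h1 := h (x y)
    change c (τ (x y)) = τ (x (g y))
    rw [h1]
    change τ (x (g ((x⁻¹ * x) y))) = _
    rw [inv_mul_cancel]
    rfl
  · intro h y
    have h1 := h (x⁻¹ y)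
    change c (τ ((x * x⁻¹) y)) = τ (x (g (x⁻¹ y))) at h1
    rw [mul_inv_cancel] at h1
    exact h1

open Classical in
/-- the sum of the values `χ g` over the pairs `(τ, g)` with `c ∘ τ = τ ∘ g`, where `τ` is an
embedding of `L`, divided by `[L : K]` -/
noncomputable def tv (K L : Type) [Field K] [Field L] [Algebra K L]
    (χ : (L ≃ₐ[K] L) → ℂ) : ℂ :=
  (Nat.card (L ≃ₐ[K] L) : ℂ)⁻¹ * ∑ᶠ τ : L →+* E, ∑ᶠ g : L ≃ₐ[K] L, if Tw c τ g then χ g else 0

variable (K L : Type) [Field K] [NumberField K] [Field L] [NumberField L] [Algebra K L]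

open Classical in
lemma tv_eq [Fintype (L ≃ₐ[K] L)] (χ : (L ≃ₐ[K] L) → ℂ) :
    tv c K L χ = (Nat.card (L ≃ₐ[K] L) : ℂ)⁻¹ *
      ∑ τ : L →+* E, ∑ g : L ≃ₐ[K] L, if Tw c τ g then χ g else 0 := by
  rw [tv, finsum_eq_sum_of_fintype]
  congr 1
  exact Finset.sum_congr rfl fun τ _ => finsum_eq_sum_of_fintype _

lemma tv_add (χ χ' : (L ≃ₐ[K] L) → ℂ) : tv c K L (χ + χ') = tv c K L χ + tv c K L χ' := by
  classical
  have hfin : FiniteDimensional K L := Module.Finite.of_restrictScalars_finite ℚ K L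
  have : Fintype (L ≃ₐ[K] L) := Fintype.ofFinite _
  rw [tv_eq, tv_eq, tv_eq, ← mul_add, ← Finset.sum_add_distrib]
  congr 1
  refine Finset.sum_congr rfl fun τ _ => ?_
  rw [← Finset.sum_add_distrib]
  refine Finset.sum_congr rfl fun g _ => ?_
  by_cases h : Tw c τ g
  · rw [if_pos h, if_pos h, if_pos h]; rfl
  · rw [if_neg h, if_neg h, if_neg h, add_zero]

variable {K L}

open Classical in
lemma indChar_eq_sum (K F L : Type) [Field K] [Field F] [Field L] [Algebra K F] [Algebra F L]
    [Algebra K L] [IsScalarTower K F L] [Fintype (L ≃ₐ[K] L)] [Fintype (L ≃ₐ[F] L)]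
    (χ : (L ≃ₐ[F] L) → ℂ) (g : L ≃ₐ[K] L) :
    indChar K F L χ g = (Nat.card (L ≃ₐ[F] L) : ℂ)⁻¹ * ∑ x : L ≃ₐ[K] L, ∑ h : L ≃ₐ[F] L,
      if g = x * h.restrictScalars K * x⁻¹ then χ h else 0 := by
  rw [indChar, finsum_eq_sum_of_fintype]
  congr 1
  refine Finset.sum_congr rfl fun x _ => ?_
  rw [finsum_eq_sum_of_fintype]
  refine Finset.sum_congr rfl fun h _ => ?_
  by_cases hg : g = x * h.restrictScalars K * x⁻¹
  · have h1 : h.restrictScalars K = x⁻¹ * g * x := by rw [hg]; group
    rw [if_pos hg, finsum_eq_single _ h1 (fun a b => absurd rfl b)]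
  · have h1 : ¬ (h.restrictScalars K = x⁻¹ * g * x) := by
      intro h2
      apply hg
      rw [h2]; group
    have : IsEmpty (h.restrictScalars K = x⁻¹ * g * x) := ⟨h1⟩
    rw [if_neg hg, finsum_of_isEmpty]

/-- induction -/
lemma tv_ind (K F L : Type) [Field K] [NumberField K] [Field F] [NumberField F] [Field L]
    [NumberField L] [Algebra K F] [Algebra F L] [Algebra K L] [IsScalarTower K F L]
    (χ : (L ≃ₐ[F] L) → ℂ) : tv c K L (indChar K F L χ) = tv c F L χ := by
  classical
  have hfin : FiniteDimensional K L := Module.Finite.of_restrictScalars_finite ℚ K L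
  have hfin' : FiniteDimensional F L := Module.Finite.of_restrictScalars_finite ℚ F L
  have i1 : Fintype (L ≃ₐ[K] L) := Fintype.ofFinite _
  have i2 : Fintype (L ≃ₐ[F] L) := Fintype.ofFinite _
  rw [tv_eq, tv_eq]
  have hG : (Nat.card (L ≃ₐ[K] L) : ℂ) ≠ 0 := by exact_mod_cast Nat.card_pos.ne'
  have h1 : ∀ τ : L →+* E, (∑ g : L ≃ₐ[K] L, if Tw c τ g then indChar K F L χ g else 0)
      = (Nat.card (L ≃ₐ[F] L) : ℂ)⁻¹ * ∑ x : L ≃ₐ[K] L, ∑ h : L ≃ₐ[F] L,
        if Tw c (τ.comp (x : L →+* L)) h then χ h else 0 := by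
    intro τ
    have h2 : ∀ g : L ≃ₐ[K] L, (if Tw c τ g then indChar K F L χ g else 0)
        = (Nat.card (L ≃ₐ[F] L) : ℂ)⁻¹ * ∑ x : L ≃ₐ[K] L, ∑ h : L ≃ₐ[F] L,
          if g = x * h.restrictScalars K * x⁻¹ then (if Tw c τ g then χ h else 0) else 0 := by
      intro g
      by_cases hg : Tw c τ g
      · simp only [if_pos hg]
        exact indChar_eq_sum K F L χ g
      · simp [if_neg hg]
    rw [Finset.sum_congr rfl (fun g _ => h2 g), ← Finset.mul_sum, Finset.sum_comm]
    congr 1
    refine Finset.sum_congr rfl fun x _ => ?_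
    rw [Finset.sum_comm]
    refine Finset.sum_congr rfl fun h _ => ?_
    rw [Finset.sum_ite_eq' Finset.univ, if_pos (Finset.mem_univ _)]
    have h3 : Tw c τ (x * h.restrictScalars K * x⁻¹) ↔ Tw c (τ.comp (x : L →+* L)) h :=
      Tw.conj (g := h.restrictScalars K) c x
    by_cases h4 : Tw c (τ.comp (x : L →+* L)) h
    · rw [if_pos h4, if_pos (h3.mpr h4)]
    · rw [if_neg h4, if_neg (fun h5 => h4 (h3.mp h5))]
  rw [Finset.sum_congr rfl (fun τ _ => h1 τ), ← Finset.mul_sum, Finset.sum_comm]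
  have h2 : ∀ x : L ≃ₐ[K] L, (∑ τ : L →+* E, ∑ h : L ≃ₐ[F] L,
      if Tw c (τ.comp (x : L →+* L)) h then χ h else 0)
      = ∑ τ : L →+* E, ∑ h : L ≃ₐ[F] L, if Tw c τ h then χ h else 0 := by
    intro x
    let e : (L →+* E) ≃ (L →+* E) :=
      { toFun := fun τ => τ.comp (x : L →+* L)
        invFun := fun τ => τ.comp ((x⁻¹ : L ≃ₐ[K] L) : L →+* L)
        left_inv := by
          intro τ
          ext y
          change τ ((x * x⁻¹) y) = τ y
          rw [mul_inv_cancel]
          rfl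
        right_inv := by
          intro τ
          ext y
          change τ ((x⁻¹ * x) y) = τ y
          rw [inv_mul_cancel]
          rfl }
    exact Equiv.sum_comp e (fun τ => ∑ h : L ≃ₐ[F] L, if Tw c τ h then χ h else 0)
  rw [Finset.sum_congr rfl (fun x _ => h2 x), Finset.sum_const, Finset.card_univ, nsmul_eq_mul,
    ← Nat.card_eq_fintype_card]
  field_simp

/-- lifting -/
lemma exists_tw (j : E →+* ℂ) {K N : Type} [Field K] [NumberField K] [Field N] [NumberField N]
    [Algebra K N] [IsGalois K N] (τ : N →+* E)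
    (h : ∀ x : K, c (τ (algebraMap K N x)) = τ (algebraMap K N x)) :
    ∃ g : N ≃ₐ[K] N, Tw c τ g := by
  obtain ⟨σ, hσ⟩ := ComplexEmbedding.exists_comp_symm_eq_of_comp_eq (k := K) (j.comp τ)
    ((j.comp (c : E →+* E)).comp τ) (by
      ext x
      change j (τ (algebraMap K N x)) = j (c (τ (algebraMap K N x)))
      rw [h])
  refine ⟨σ.symm, fun x => ?_⟩
  apply j.injective
  exact (RingHom.congr_fun hσ x).symm

lemma card_lift [IsAlgClosed E] {L N : Type} [Field L] [NumberField L] [Field N] [NumberField N]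
    [Algebra L N] (τ' : L →+* E) :
    Nat.card {τ : N →+* E // τ.comp (algebraMap L N) = τ'} = Module.finrank L N := by
  let _ : Algebra L E := τ'.toAlgebra
  have hfin : FiniteDimensional L N := Module.Finite.of_restrictScalars_finite ℚ L N
  rw [← AlgHom.card L N E, ← Nat.card_eq_fintype_card]
  refine Nat.card_congr
    ⟨fun τ => { toRingHom := τ.1, commutes' := fun x => RingHom.congr_fun τ.2 x },
     fun τ => ⟨τ.toRingHom, by ext x; exact τ.commutes x⟩, fun τ => ?_, fun τ => ?_⟩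
  · apply Subtype.ext
    rfl
  · rfl

/-- inflation -/
lemma tv_infl (j : E →+* ℂ) [IsAlgClosed E] (K L N : Type) [Field K] [NumberField K] [Field L]
    [NumberField L] [Field N] [NumberField N] [Algebra K L] [IsGalois K L] [Algebra K N]
    [IsGalois K N] [Algebra L N] [IsScalarTower K L N] (χ : (L ≃ₐ[K] L) → ℂ) :
    tv c K N (fun g => χ (AlgEquiv.restrictNormalHom L g)) = tv c K L χ := by
  classical
  have hfin : FiniteDimensional K L := Module.Finite.of_restrictScalars_finite ℚ K L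
  have hfin' : FiniteDimensional K N := Module.Finite.of_restrictScalars_finite ℚ K N
  have i1 : Fintype (L ≃ₐ[K] L) := Fintype.ofFinite _
  have i2 : Fintype (N ≃ₐ[K] N) := Fintype.ofFinite _
  rw [tv_eq, tv_eq]
  have hres : ∀ (τ : N →+* E) (g : N ≃ₐ[K] N), Tw c τ g →
      Tw c (τ.comp (algebraMap L N)) (AlgEquiv.restrictNormalHom L g) := by
    intro τ g h x
    change c (τ (algebraMap L N x)) = τ (algebraMap L N (AlgEquiv.restrictNormalHom L g x))
    rw [h, res_apply]
  have h1 : ∀ τ : N →+* E, (∑ g : N ≃ₐ[K] N,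
      if Tw c τ g then χ (AlgEquiv.restrictNormalHom L g) else 0)
      = ∑ g : L ≃ₐ[K] L, if Tw c (τ.comp (algebraMap L N)) g then χ g else 0 := by
    intro τ
    by_cases h : ∃ g : N ≃ₐ[K] N, Tw c τ g
    · obtain ⟨g, hg⟩ := h
      rw [Finset.sum_eq_single g, if_pos hg, Finset.sum_eq_single (AlgEquiv.restrictNormalHom L g),
        if_pos (hres τ g hg)]
      · intro b _ hb
        rw [if_neg]
        intro h2
        exact hb (Tw.unique c h2 (hres τ g hg))
      · intro h2
        exact absurd (Finset.mem_univ _) h2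
      · intro b _ hb
        rw [if_neg]
        intro h2
        exact hb (Tw.unique c h2 hg)
      · intro h2
        exact absurd (Finset.mem_univ _) h2
    · rw [Finset.sum_eq_zero, Finset.sum_eq_zero]
      · intro g _
        rw [if_neg]
        intro h2
        apply h
        apply exists_tw c j τ
        intro x
        have h3 := h2 (algebraMap K L x)
        change c (τ (algebraMap L N (algebraMap K L x)))
          = τ (algebraMap L N (g (algebraMap K L x))) at h3
        rw [AlgEquiv.commutes, ← IsScalarTower.algebraMap_apply K L N] at h3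
        exact h3
      · intro g _
        rw [if_neg]
        intro h2
        exact h ⟨g, h2⟩
  rw [Finset.sum_congr rfl (fun τ _ => h1 τ)]
  let H : (L →+* E) → ℂ := fun τ' => ∑ g : L ≃ₐ[K] L, if Tw c τ' g then χ g else 0
  have h2 : (∑ τ : N →+* E, H (τ.comp (algebraMap L N)))
      = Module.finrank L N * ∑ τ' : L →+* E, H τ' := by
    rw [← Finset.sum_fiberwise Finset.univ (fun τ : N →+* E => τ.comp (algebraMap L N)),
      Finset.mul_sum]
    refine Finset.sum_congr rfl fun τ' _ => ?_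
    rw [Finset.sum_congr rfl (g := fun _ => H τ')
      (fun τ hτ => by rw [(Finset.mem_filter.mp hτ).2]), Finset.sum_const, nsmul_eq_mul]
    congr 2
    rw [← card_lift (E := E) (N := N) τ', Nat.card_eq_fintype_card, Fintype.card_subtype]
  change (Nat.card (N ≃ₐ[K] N) : ℂ)⁻¹ * (∑ τ : N →+* E, H (τ.comp (algebraMap L N)))
    = (Nat.card (L ≃ₐ[K] L) : ℂ)⁻¹ * ∑ τ' : L →+* E, H τ'
  rw [h2, IsGalois.card_aut_eq_finrank, IsGalois.card_aut_eq_finrank,
    ← Module.finrank_mul_finrank K L N]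
  have hfin'' : FiniteDimensional L N := Module.Finite.of_restrictScalars_finite ℚ L N
  have h3 : (Module.finrank L N : ℂ) ≠ 0 := by exact_mod_cast (Module.finrank_pos).ne'
  have h4 : (Module.finrank K L : ℂ) ≠ 0 := by exact_mod_cast (Module.finrank_pos).ne'
  push_cast
  field_simp

/-- the trivial character of `ℚ` -/
lemma tv_rat : tv c ℚ ℚ (fun _ => 1) = 1 := by
  classical
  have : Fintype (ℚ ≃ₐ[ℚ] ℚ) := Fintype.ofFinite _
  rw [tv_eq]
  have h1 : ∀ (τ : ℚ →+* E) (g : ℚ ≃ₐ[ℚ] ℚ), Tw c τ g := by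
    intro τ g x
    have h2 : g x = x := by simp
    rw [h2]
    have h3 : (c : E →+* E).comp τ = τ := Subsingleton.elim _ _
    exact RingHom.congr_fun h3 x
  simp only [h1, if_true, Finset.sum_const, Finset.card_univ, nsmul_eq_mul, mul_one]
  have h2 : Fintype.card (ℚ →+* E) = 1 := by
    rw [Fintype.card_eq_one_iff_nonempty_unique]
    exact ⟨{ default := algebraMap ℚ E, uniq := fun a => Subsingleton.elim _ _ }⟩
  have h3 : Nat.card (ℚ ≃ₐ[ℚ] ℚ) = 1 := by
    rw [IsGalois.card_aut_eq_finrank, Module.finrank_self]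
  rw [h2, ← Nat.card_eq_fintype_card, h3]
  simp

/-- the invariant of `c`, modulo a group of complex numbers -/
noncomputable def tvInv (j : E →+* ℂ) [IsAlgClosed E] (W : AddSubgroup ℂ) :
    ArtinInvariant (Multiplicative (ℂ ⧸ W)) where
  val K L _ _ _ _ _ _ χ := Multiplicative.ofAdd (QuotientAddGroup.mk (tv c K L χ))
  val_add K L _ _ _ _ _ _ χ χ' _ _ := by
    rw [tv_add, QuotientAddGroup.mk_add, ofAdd_add]
  val_infl K L N _ _ _ _ _ _ _ _ _ _ _ _ χ _ := by
    rw [tv_infl c j K L N χ]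
  val_ind K F L _ _ _ _ _ _ _ _ _ _ _ _ χ _ := by
    rw [tv_ind c K F L χ]

end tv

end Pool.Agent.H37.Stk
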