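import Mathlib
import Pool.Agent.H37.Stk.Inv

/-!
# Congruences for the invariants attached to automorphisms
-/

set_option autoImplicit false
set_option linter.unusedSectionVars false

namespace Pool.Agent.H37.Stk

open NumberField Pool.Agent.K4H74.ST Pool.Agent.K4H74.SC Pool.Agent.R389 MulAction

/-- sums over a set with an action of a `p`-group without fixed points -/
lemma sum_orbits {p : ℕ} [hp : Fact p.Prime] {X : Type} [Finite X] {S : Type} [Group S]
    [MulAction S X] (hS : ∀ s : S, ∃ k, ∀ x : X, s ^ (p ^ k) • x = x)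
    (hfix : ∀ x : X, ∃ s : S, s • x ≠ x) (h : X → ℂ) (hh : ∀ (s : S) x, h (s • x) = h x)
    (hi : ∀ x, IsIntegral ℤ (h x)) : ∃ y : ℂ, IsIntegral ℤ y ∧ ∑ᶠ x, h x = p * y := by
  classical
  have : Fintype X := Fintype.ofFinite X
  let Q : Subgroup (Equiv.Perm X) := (toPermHom S X).range
  have hQ : IsPGroup p Q := by
    rw [isPGroup_iff_pow_pow_eq_one]
    rintro ⟨_, s, rfl⟩
    obtain ⟨k, hk⟩ := hS s
    refine ⟨k, ?_⟩
    apply Subtype.ext
    change (toPermHom S X s) ^ p ^ k = 1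
    rw [← map_pow]
    ext x
    exact hk x
  let mk : X → Quotient (orbitRel Q X) := Quotient.mk _
  have hcon : ∀ x y : X, mk x = mk y → h x = h y := by
    intro x y hxy
    obtain ⟨⟨_, s, rfl⟩, hs⟩ := orbitRel_apply.mp (Quotient.exact hxy)
    rw [← hs]
    exact hh s y
  have hcard : ∀ x : X, p ∣ (Finset.univ.filter (fun y : X => mk y = mk x)).card := by
    intro x
    obtain ⟨n, hn⟩ := hQ.card_orbit x
    have h1 : (Finset.univ.filter (fun y : X => mk y = mk x)).card = Nat.card (orbit Q x) := by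
      rw [← Fintype.card_subtype, ← Nat.card_eq_fintype_card]
      refine Nat.card_congr (Equiv.subtypeEquivRight fun y => ?_)
      rw [← orbitRel_apply]
      exact ⟨fun h => Quotient.exact h, fun h => Quotient.sound h⟩
    rw [h1, hn]
    rcases Nat.eq_zero_or_pos n with h0 | h0
    · exfalso
      rw [h0, pow_zero] at hn
      obtain ⟨s, hs⟩ := hfix x
      apply hs
      have h2 : Subsingleton (orbit Q x) := (Nat.card_eq_one_iff_unique.mp hn).1
      have h3 := Subsingleton.elim (⟨x, mem_orbit_self x⟩ : orbit Q x)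
        ⟨(⟨toPermHom S X s, s, rfl⟩ : Q) • x, mem_orbit x _⟩
      exact (congrArg Subtype.val h3).symm
    · exact dvd_pow_self p h0.ne'
  choose m hm using hcard
  refine ⟨∑ ω : Quotient (orbitRel Q X), m ω.out * h ω.out, ?_, ?_⟩
  · exact IsIntegral.sum _ fun ω _ => (isIntegral_natCast _).mul (hi _)
  · rw [finsum_eq_sum_of_fintype, ← Finset.sum_fiberwise Finset.univ mk, Finset.mul_sum]
    refine Finset.sum_congr rfl fun ω _ => ?_
    have h2 : mk ω.out = ω := Quotient.out_eq ω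
    rw [Finset.sum_congr rfl (g := fun _ => h ω.out) (fun x hx => hcon _ _ (by
      rw [(Finset.mem_filter.mp hx).2, h2])), Finset.sum_const, nsmul_eq_mul]
    have h3 := hm ω.out
    rw [h2] at h3
    rw [h3]
    push_cast
    ring

section

variable {Ω E : Type} [Field Ω] [CharZero Ω] [Field E] [CharZero E] [Algebra Ω E] [IsGalois Ω E]

/-- `c` generates, in all finite Galois groups over `Ω`, a central subgroup whose quotient is a
`p`-group -/
def IsTop (p : ℕ) (c : E ≃ₐ[Ω] E) : Prop :=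
  ∀ N : FiniteGaloisIntermediateField Ω E,
    AlgEquiv.restrictNormalHom N c ∈ Subgroup.center (N ≃ₐ[Ω] N) ∧
      ∀ g : N ≃ₐ[Ω] N, ∃ k : ℕ, g ^ (p ^ k) ∈ Subgroup.zpowers (AlgEquiv.restrictNormalHom N c)

lemma res_val (N : FiniteGaloisIntermediateField Ω E) (s : E ≃ₐ[Ω] E) (x : N) :
    ((AlgEquiv.restrictNormalHom N s x : N) : E) = s (x : E) :=
  AlgEquiv.restrictNormal_commutes s N x

lemma IsTop.comm {p : ℕ} {c : E ≃ₐ[Ω] E} (hc : IsTop p c) (s : E ≃ₐ[Ω] E) (y : E) :
    s (c y) = c (s y) := by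
  let N := FiniteGaloisIntermediateField.adjoin Ω ({y} : Set E)
  have hy : y ∈ N.toIntermediateField :=
    FiniteGaloisIntermediateField.subset_adjoin Ω {y} rfl
  have h1 := Subgroup.mem_center_iff.mp (hc N).1 (AlgEquiv.restrictNormalHom N s)
  have h2 := congrArg (fun f : N ≃ₐ[Ω] N => ((f ⟨y, hy⟩ : N) : E)) h1
  rw [← map_mul, ← map_mul] at h2
  rw [res_val N, res_val N] at h2
  exact h2

lemma IsTop.pow_fix {p : ℕ} {c : E ≃ₐ[Ω] E} (hc : IsTop p c) (s : E ≃ₐ[Ω] E) (Y : Set E)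
    [Finite Y] (hY : ∀ y ∈ Y, c y = y) : ∃ k : ℕ, ∀ y ∈ Y, (s ^ (p ^ k)) y = y := by
  let N := FiniteGaloisIntermediateField.adjoin Ω Y
  obtain ⟨k, m, hm⟩ := (hc N).2 (AlgEquiv.restrictNormalHom N s)
  refine ⟨k, fun y hy => ?_⟩
  have hyN : y ∈ N.toIntermediateField := FiniteGaloisIntermediateField.subset_adjoin Ω Y hy
  simp only at hm
  rw [← map_pow, ← map_zpow] at hm
  have h2 := congrArg (fun f : N ≃ₐ[Ω] N => ((f ⟨y, hyN⟩ : N) : E)) hm
  rw [res_val N, res_val N] at h2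
  change (c ^ m) y = (s ^ (p ^ k)) y at h2
  rw [← h2]
  have h3 : c ∈ MulAction.stabilizer (E ≃ₐ[Ω] E) y := hY y hy
  exact (MulAction.stabilizer (E ≃ₐ[Ω] E) y).zpow_mem h3 m

variable {F : Type} [Field F] [NumberField F]

/-- the embeddings of `F` which are fixed by `c` -/
def FixEmb (F : Type) [Field F] (c : E ≃ₐ[Ω] E) : Type :=
  {τ : F →+* E // ∀ x, c (τ x) = τ x}

instance (c : E ≃ₐ[Ω] E) : Finite (FixEmb F c) := Subtype.finite

lemma FixEmb.pow {p : ℕ} {c : E ≃ₐ[Ω] E} (hc : IsTop p c) (s : E ≃ₐ[Ω] E) :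
    ∃ k : ℕ, ∀ (τ : FixEmb F c) (x : F), (s ^ (p ^ k)) (τ.1 x) = τ.1 x := by
  let b := Module.finBasis ℚ F
  let Y : Set E := Set.range (fun z : FixEmb F c × Fin (Module.finrank ℚ F) => z.1.1 (b z.2))
  have hY : Finite Y := inferInstance
  obtain ⟨k, hk⟩ := hc.pow_fix s Y (by
    rintro _ ⟨z, rfl⟩
    exact z.1.2 _)
  refine ⟨k, fun τ x => ?_⟩
  have h1 : ((((s ^ (p ^ k) : E ≃ₐ[Ω] E) : E →+* E).comp τ.1).toRatAlgHom).toLinearMap
      = (τ.1.toRatAlgHom).toLinearMap := by
    apply b.ext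
    intro i
    exact hk _ ⟨(τ, i), rfl⟩
  exact LinearMap.congr_fun h1 x

/-- embeddings fixed by everything -/
lemma FixEmb.hom (τ : F →+* E) (h : ∀ (s : E ≃ₐ[Ω] E) x, s (τ x) = τ x) :
    Nonempty (F →+* Ω) := by
  have h1 : ∀ x, ∃ y : Ω, algebraMap Ω E y = τ x := fun x =>
    (InfiniteGalois.mem_range_algebraMap_iff_fixed (τ x)).mpr fun s => h s x
  choose f hf using h1
  have hinj := (algebraMap Ω E).injective
  exact ⟨{
    toFun := f
    map_one' := hinj (by rw [hf, map_one, map_one])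
    map_mul' := fun a b => hinj (by rw [hf, map_mul, map_mul, hf, hf])
    map_zero' := hinj (by rw [hf, map_zero, map_zero])
    map_add' := fun a b => hinj (by rw [hf, map_add, map_add, hf, hf]) }⟩

/-- the action on the embeddings which are fixed by `c` -/
@[instance_reducible]
def FixEmb.act {p : ℕ} {c : E ≃ₐ[Ω] E} (hc : IsTop p c) :
    MulAction (E ≃ₐ[Ω] E) (FixEmb F c) where
  smul s τ := ⟨(s : E →+* E).comp τ.1, fun x => by
    change c (s (τ.1 x)) = s (τ.1 x)
    rw [← hc.comm, τ.2]⟩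
  one_smul τ := rfl
  mul_smul s t τ := rfl

end

/-- character values are algebraic integers -/
lemma isIntegral_char {G : Type} [Group G] [Finite G] {χ : G → ℂ} (h : IsChar χ) (g : G) :
    IsIntegral ℤ (χ g) := by
  obtain ⟨V, _, _, _, ρ, rfl⟩ := h
  change IsIntegral ℤ (LinearMap.trace ℂ V (ρ g))
  rw [Module.End.trace_eq_sum_roots_charpoly_of_splits (IsAlgClosed.splits _)]
  have h1 : ∀ μ ∈ (ρ g).charpoly.roots, IsIntegral ℤ μ := by
    intro μ hμ
    have h2 : Module.End.HasEigenvalue (ρ g) μ := by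
      rw [Module.End.hasEigenvalue_iff_isRoot_charpoly]
      exact (Polynomial.mem_roots'.mp hμ).2
    obtain ⟨v, hv⟩ := h2.exists_hasEigenvector
    have h3 : ∀ n : ℕ, ((ρ g) ^ n) v = μ ^ n • v := by
      intro n
      induction n with
      | zero => simp
      | succ n ih =>
        rw [pow_succ', Module.End.mul_apply, ih, map_smul, hv.apply_eq_smul, smul_smul, pow_succ]
    have h4 := h3 (Nat.card G)
    rw [← map_pow, pow_card_eq_one', map_one, Module.End.one_apply] at h4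
    have h5 : μ ^ Nat.card G = 1 := by
      have h6 : (μ ^ Nat.card G - 1) • v = 0 := by
        rw [sub_smul, one_smul, ← h4, sub_self]
      rcases smul_eq_zero.mp h6 with h7 | h7
      · exact sub_eq_zero.mp h7
      · exact absurd h7 hv.2
    refine IsIntegral.of_pow (Nat.card_pos (α := G)) ?_
    rw [h5]
    exact isIntegral_one
  generalize (ρ g).charpoly.roots = m at h1
  induction m using Multiset.induction_on with
  | empty => simpa using isIntegral_zero
  | cons a m ih =>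
    rw [Multiset.sum_cons]
    exact (h1 a (Multiset.mem_cons_self a m)).add
      (ih fun μ hμ => h1 μ (Multiset.mem_cons_of_mem hμ))

section

variable {Ω E : Type} [Field Ω] [CharZero Ω] [Field E] [CharZero E] [Algebra Ω E] [IsGalois Ω E]
  [IsAlgClosed E] {p : ℕ} {c : E ≃ₐ[Ω] E}

variable {F L : Type} [Field F] [NumberField F] [Field L] [NumberField L] [Algebra F L]
  [IsGalois F L] {χ : (L ≃ₐ[F] L) → ℂ}

open Classical in
/-- the value at an embedding -/
noncomputable def at' (c : E ≃ₐ[Ω] E) (χ : (L ≃ₐ[F] L) → ℂ) (τ : L →+* E) : ℂ :=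
  if h : ∃ g : L ≃ₐ[F] L, Tw (c : E ≃+* E) τ g then χ h.choose else 0

lemma at'_eq {τ : L →+* E} {g : L ≃ₐ[F] L} (h : Tw (c : E ≃+* E) τ g) : at' c χ τ = χ g := by
  have h1 : ∃ g : L ≃ₐ[F] L, Tw (c : E ≃+* E) τ g := ⟨g, h⟩
  rw [at', dif_pos h1, Tw.unique _ h1.choose_spec h]

open Classical in
lemma at'_sum [Fintype (L ≃ₐ[F] L)] (τ : L →+* E) :
    (∑ g : L ≃ₐ[F] L, if Tw (c : E ≃+* E) τ g then χ g else 0) = at' c χ τ := by
  by_cases h : ∃ g : L ≃ₐ[F] L, Tw (c : E ≃+* E) τ g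
  · obtain ⟨g, hg⟩ := h
    rw [at'_eq hg, Finset.sum_eq_single g, if_pos hg]
    · intro b _ hb
      rw [if_neg]
      intro h2
      exact hb (Tw.unique _ h2 hg)
    · intro h2
      exact absurd (Finset.mem_univ _) h2
  · rw [at', dif_neg h]
    apply Finset.sum_eq_zero
    intro g _
    rw [if_neg]
    intro h2
    exact h ⟨g, h2⟩

lemma at'_zero {τ : L →+* E} (h : ¬ ∃ g : L ≃ₐ[F] L, Tw (c : E ≃+* E) τ g) : at' c χ τ = 0 := by
  rw [at', dif_neg h]

lemma at'_comp (hχ : IsChar χ) (τ : L →+* E) (x : L ≃ₐ[F] L) :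
    at' c χ (τ.comp (x : L →+* L)) = at' c χ τ := by
  by_cases h : ∃ g : L ≃ₐ[F] L, Tw (c : E ≃+* E) (τ.comp (x : L →+* L)) g
  · obtain ⟨g, hg⟩ := h
    rw [at'_eq hg, at'_eq ((Tw.conj _ x).mpr hg), IsChar.class hχ]
  · rw [at'_zero h, at'_zero]
    rintro ⟨g, hg⟩
    apply h
    refine ⟨x⁻¹ * g * x, (Tw.conj _ x).mp ?_⟩
    have h1 : x * (x⁻¹ * g * x) * x⁻¹ = g := by group
    rw [h1]
    exact hg

lemma at'_same (j : E →+* ℂ) (hχ : IsChar χ) {τ τ' : L →+* E}
    (h : τ.comp (algebraMap F L) = τ'.comp (algebraMap F L)) : at' c χ τ = at' c χ τ' := by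
  obtain ⟨σ, hσ⟩ := ComplexEmbedding.exists_comp_symm_eq_of_comp_eq (k := F) (j.comp τ)
    (j.comp τ') (by
      rw [RingHom.comp_assoc, RingHom.comp_assoc, h])
  have h1 : τ.comp ((σ.symm : L ≃ₐ[F] L) : L →+* L) = τ' := by
    ext x
    apply j.injective
    exact RingHom.congr_fun hσ x
  rw [← h1, at'_comp hχ]

lemma at'_left (hc : IsTop p c) (s : E ≃ₐ[Ω] E) (τ : L →+* E) :
    at' c χ ((s : E →+* E).comp τ) = at' c χ τ := by
  have h1 : ∀ g : L ≃ₐ[F] L, Tw (c : E ≃+* E) ((s : E →+* E).comp τ) g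
      ↔ Tw (c : E ≃+* E) τ g := by
    intro g
    constructor
    · intro h x
      have h2 := h x
      change c (s (τ x)) = s (τ (g x)) at h2
      rw [← hc.comm] at h2
      exact s.injective h2
    · intro h x
      have h2 := h x
      change c (τ x) = τ (g x) at h2
      change c (s (τ x)) = s (τ (g x))
      rw [← hc.comm, h2]
  by_cases h : ∃ g : L ≃ₐ[F] L, Tw (c : E ≃+* E) τ g
  · obtain ⟨g, hg⟩ := h
    rw [at'_eq hg, at'_eq ((h1 g).mpr hg)]
  · rw [at'_zero h, at'_zero]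
    rintro ⟨g, hg⟩
    exact h ⟨g, (h1 g).mp hg⟩

lemma at'_int (hχ : IsChar χ) (τ : L →+* E) : IsIntegral ℤ (at' c χ τ) := by
  have hfin : FiniteDimensional F L := Module.Finite.of_restrictScalars_finite ℚ F L
  by_cases h : ∃ g : L ≃ₐ[F] L, Tw (c : E ≃+* E) τ g
  · obtain ⟨g, hg⟩ := h
    rw [at'_eq hg]
    exact isIntegral_char hχ g
  · rw [at'_zero h]
    exact isIntegral_zero

lemma at'_fix {τ : L →+* E} (h : at' c χ τ ≠ 0) (x : F) :
    c (τ (algebraMap F L x)) = τ (algebraMap F L x) := by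
  by_cases h1 : ∃ g : L ≃ₐ[F] L, Tw (c : E ≃+* E) τ g
  · obtain ⟨g, hg⟩ := h1
    have h2 := hg (algebraMap F L x)
    change c (τ (algebraMap F L x)) = τ (g (algebraMap F L x)) at h2
    rwa [AlgEquiv.commutes] at h2
  · exact absurd (at'_zero h1) h

lemma exists_lift_emb (F L : Type) [Field F] [NumberField F] [Field L] [NumberField L]
    [Algebra F L] (τ₀ : F →+* E) : ∃ τ : L →+* E, τ.comp (algebraMap F L) = τ₀ := by
  let _ : Algebra F E := τ₀.toAlgebra
  have hfin : FiniteDimensional F L := Module.Finite.of_restrictScalars_finite ℚ F L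
  let f : L →ₐ[F] E := IsAlgClosed.lift
  exact ⟨f.toRingHom, by ext x; exact f.commutes x⟩

/-- an embedding of `L` which extends an embedding of `F` -/
noncomputable def lft (F L : Type) [Field F] [NumberField F] [Field L] [NumberField L]
    [Algebra F L] (τ₀ : F →+* E) : L →+* E := (exists_lift_emb F L τ₀).choose

lemma lft_spec (F L : Type) [Field F] [NumberField F] [Field L] [NumberField L]
    [Algebra F L] (τ₀ : F →+* E) : (lft F L τ₀).comp (algebraMap F L) = τ₀ :=
  (exists_lift_emb F L τ₀).choose_spec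

/-- the value as a sum over the embeddings of the base field which are fixed by `c` -/
lemma tv_eq_fix (j : E →+* ℂ) (hχ : IsChar χ) :
    tv (c : E ≃+* E) F L χ = ∑ᶠ τ : FixEmb F c, at' c χ (lft F L τ.1) := by
  classical
  have hfin : FiniteDimensional F L := Module.Finite.of_restrictScalars_finite ℚ F L
  have i1 : Fintype (L ≃ₐ[F] L) := Fintype.ofFinite _
  have i2 : Fintype (FixEmb F c) := Fintype.ofFinite _
  have hF : (Module.finrank F L : ℂ) ≠ 0 := by exact_mod_cast (Module.finrank_pos).ne'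
  rw [tv_eq, finsum_eq_sum_of_fintype, IsGalois.card_aut_eq_finrank]
  have h1 : (∑ τ : L →+* E, ∑ g : L ≃ₐ[F] L, if Tw (c : E ≃+* E) τ g then χ g else 0)
      = ∑ τ : L →+* E, at' c χ τ := Finset.sum_congr rfl fun τ _ => at'_sum τ
  rw [h1]
  have h2 : (∑ τ : L →+* E, at' c χ τ)
      = Module.finrank F L * ∑ τ₀ : F →+* E, at' c χ (lft F L τ₀) := by
    rw [← Finset.sum_fiberwise Finset.univ (fun τ : L →+* E => τ.comp (algebraMap F L)),
      Finset.mul_sum]
    refine Finset.sum_congr rfl fun τ₀ _ => ?_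
    rw [Finset.sum_congr rfl (g := fun _ => at' c χ (lft F L τ₀))
      (fun τ hτ => at'_same j hχ (by
        rw [(Finset.mem_filter.mp hτ).2, lft_spec])), Finset.sum_const, nsmul_eq_mul]
    congr 2
    rw [← card_lift (E := E) (N := L) τ₀, Nat.card_eq_fintype_card, Fintype.card_subtype]
  rw [h2, inv_mul_cancel_left₀ hF]
  rw [← Finset.sum_subset (Finset.subset_univ
    (Finset.univ.filter fun τ₀ : F →+* E => ∀ x, c (τ₀ x) = τ₀ x))]
  · exact Finset.sum_subtype _ (by simp) (fun τ₀ : F →+* E => at' c χ (lft F L τ₀))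
  · intro τ₀ _ h3
    by_contra h4
    apply h3
    rw [Finset.mem_filter]
    refine ⟨Finset.mem_univ _, fun x => ?_⟩
    have h5 := at'_fix h4 x
    have h6 := RingHom.congr_fun (lft_spec F L τ₀) x
    rw [← h6]
    exact h5

/-- the value is divisible by `p` if no embedding is fixed by the group -/
theorem tv_prime (j : E →+* ℂ) (hp : p.Prime) (hc : IsTop p c) (hχ : IsChar χ)
    (hF : IsEmpty (F →+* Ω)) : ∃ y : ℂ, IsIntegral ℤ y ∧ tv (c : E ≃+* E) F L χ = p * y := by
  have : Fact p.Prime := ⟨hp⟩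
  rw [tv_eq_fix j hχ]
  let _ : MulAction (E ≃ₐ[Ω] E) (FixEmb F c) := FixEmb.act hc
  apply sum_orbits (S := E ≃ₐ[Ω] E)
  · intro s
    obtain ⟨k, hk⟩ := FixEmb.pow (F := F) hc s
    refine ⟨k, fun τ => ?_⟩
    apply Subtype.ext
    ext x
    exact hk τ x
  · intro τ
    by_contra h
    push Not at h
    obtain ⟨f⟩ := FixEmb.hom (Ω := Ω) τ.1 (fun s x => by
      have h1 := congrArg Subtype.val (h s)
      exact RingHom.congr_fun h1 x)
    exact hF.false f
  · intro s τ
    have h1 : at' c χ (lft F L (s • τ).1) = at' c χ ((s : E →+* E).comp (lft F L τ.1)) := by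
      apply at'_same j hχ
      rw [lft_spec, RingHom.comp_assoc, lft_spec]
      rfl
    rw [h1, at'_left hc]
  · intro τ
    exact at'_int hχ _

/-- the value is zero if no embedding is fixed by the group, in the cyclic case -/
theorem tv_cyclic (j : E →+* ℂ) (hc : IsTop 1 c) (hχ : IsChar χ)
    (hF : IsEmpty (F →+* Ω)) : tv (c : E ≃+* E) F L χ = 0 := by
  rw [tv_eq_fix j hχ]
  have : IsEmpty (FixEmb F c) := by
    refine ⟨fun τ => ?_⟩
    obtain ⟨f⟩ := FixEmb.hom (Ω := Ω) τ.1 (fun s x => by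
      obtain ⟨k, hk⟩ := FixEmb.pow (F := F) hc s
      have h1 := hk τ x
      rwa [one_pow, pow_one] at h1)
    exact hF.false f
  exact finsum_of_isEmpty _

end

end Pool.Agent.H37.Stk
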