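import Mathlib
import Pool.Agent.H37.Stk.Van

/-!
# Compactness: topological generators
-/

set_option autoImplicit false
set_option linter.unusedSectionVars false

namespace Pool.Agent.H37.Stk

open NumberField Pool.Agent.K4H74.ST Pool.Agent.K4H74.SC Pool.Agent.R389

section

variable {Ω E : Type} [Field Ω] [CharZero Ω] [Field E] [CharZero E] [Algebra Ω E] [IsGalois Ω E]

/-- the condition on `c` at the level `N` -/
def topSet (p : ℕ) (N : FiniteGaloisIntermediateField Ω E) : Set (E ≃ₐ[Ω] E) :=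
  {c | AlgEquiv.restrictNormalHom N c ∈ Subgroup.center (N ≃ₐ[Ω] N) ∧
    ∀ g : N ≃ₐ[Ω] N, ∃ k : ℕ, g ^ (p ^ k) ∈ Subgroup.zpowers (AlgEquiv.restrictNormalHom N c)}

lemma res_eq_iff (N : FiniteGaloisIntermediateField Ω E) (s t : E ≃ₐ[Ω] E) :
    AlgEquiv.restrictNormalHom N s = AlgEquiv.restrictNormalHom N t ↔
      ∀ y ∈ N.toIntermediateField, s y = t y := by
  constructor
  · intro h y hy
    have h2 := congrArg (fun f : N ≃ₐ[Ω] N => ((f ⟨y, hy⟩ : N) : E)) h
    rw [res_val N, res_val N] at h2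
    exact h2
  · intro h
    ext x
    rw [res_val N, res_val N]
    exact h x x.2

lemma topSet_anti {p : ℕ} {N N' : FiniteGaloisIntermediateField Ω E} (h : N ≤ N') :
    topSet p N' ⊆ topSet p N := by
  intro c hc
  have hle : ∀ y ∈ N.toIntermediateField, y ∈ N'.toIntermediateField := fun y hy => h hy
  have hsur : Function.Surjective (AlgEquiv.restrictNormalHom (F := Ω) (K₁ := E) N) :=
    AlgEquiv.restrictNormalHom_surjective E
  constructor
  · rw [Subgroup.mem_center_iff]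
    intro g
    obtain ⟨s, rfl⟩ := hsur g
    have h1 := Subgroup.mem_center_iff.mp hc.1 (AlgEquiv.restrictNormalHom N' s)
    rw [← map_mul, ← map_mul, res_eq_iff] at h1 ⊢
    exact fun y hy => h1 y (hle y hy)
  · intro g
    obtain ⟨s, rfl⟩ := hsur g
    obtain ⟨k, m, hm⟩ := hc.2 (AlgEquiv.restrictNormalHom N' s)
    refine ⟨k, m, ?_⟩
    simp only at hm ⊢
    rw [← map_pow, ← map_zpow, res_eq_iff] at hm ⊢
    exact fun y hy => hm y (hle y hy)

lemma topSet_closed {p : ℕ} (N : FiniteGaloisIntermediateField Ω E) : IsClosed (topSet p N) := by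
  have h1 : Continuous (AlgEquiv.restrictNormalHom (F := Ω) (K₁ := E) N) :=
    InfiniteGalois.restrictNormalHom_continuous N.toIntermediateField
  have h2 : DiscreteTopology (N ≃ₐ[Ω] N) := krullTopology_discreteTopology_of_finiteDimensional Ω N
  exact (isClosed_discrete {x : N ≃ₐ[Ω] N | x ∈ Subgroup.center (N ≃ₐ[Ω] N) ∧
    ∀ g : N ≃ₐ[Ω] N, ∃ k : ℕ, g ^ (p ^ k) ∈ Subgroup.zpowers x}).preimage h1

lemma topSet_nonempty {p : ℕ} (h : ProElem p Ω) (N : FiniteGaloisIntermediateField Ω E) :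
    (topSet p N).Nonempty := by
  obtain ⟨c, hc, h1⟩ := h N
  obtain ⟨s, rfl⟩ := AlgEquiv.restrictNormalHom_surjective (F := Ω) (K₁ := N) E c
  exact ⟨s, hc, h1⟩

theorem exists_top {p : ℕ} (h : ProElem p Ω) : ∃ c : E ≃ₐ[Ω] E, IsTop p c := by
  have hne : Nonempty (FiniteGaloisIntermediateField Ω E) := ⟨⊥⟩
  have h1 : (⋂ N : FiniteGaloisIntermediateField Ω E, topSet p N).Nonempty := by
    apply IsCompact.nonempty_iInter_of_directed_nonempty_isCompact_isClosed
    · intro N N'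
      exact ⟨N ⊔ N', topSet_anti le_sup_left, topSet_anti le_sup_right⟩
    · exact topSet_nonempty h
    · exact fun N => (topSet_closed N).isCompact
    · exact topSet_closed
  obtain ⟨c, hc⟩ := h1
  exact ⟨c, fun N => Set.mem_iInter.mp hc N⟩

end

/-- the complex numbers `x` such that `n x / p` is integral for a number `n` prime to `p` -/
def intW (p : ℕ) (hp : p.Prime) : AddSubgroup ℂ where
  carrier := {x | ∃ (n : ℕ) (y : ℂ), ¬ p ∣ n ∧ IsIntegral ℤ y ∧ n * x = p * y}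
  zero_mem' := ⟨1, 0, fun h => hp.one_lt.ne' (Nat.dvd_one.mp h), isIntegral_zero, by simp⟩
  add_mem' := by
    rintro a b ⟨n, y, hn, hy, h⟩ ⟨m, z, hm, hz, h'⟩
    refine ⟨n * m, m * y + n * z, fun h => (hp.dvd_mul.mp h).elim hn hm,
      ((isIntegral_natCast _).mul hy).add ((isIntegral_natCast _).mul hz), ?_⟩
    push_cast
    linear_combination (m : ℂ) * h + n * h'
  neg_mem' := by
    rintro a ⟨n, y, hn, hy, h⟩
    exact ⟨n, -y, hn, hy.neg, by linear_combination -h⟩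

lemma intW_torsion {p : ℕ} (hp : p.Prime) {P : Set ℕ} (hP : p ∈ P) :
    TorsionIn P (Multiplicative (ℂ ⧸ intW p hp)) := by
  intro ℓ hℓ hℓP x hx
  obtain ⟨x, rfl⟩ := Multiplicative.ofAdd.surjective x
  obtain ⟨x, rfl⟩ := QuotientAddGroup.mk_surjective x
  rw [← ofAdd_nsmul, ← QuotientAddGroup.mk_nsmul, ofAdd_eq_one, QuotientAddGroup.eq_zero_iff] at hx
  rw [ofAdd_eq_one, QuotientAddGroup.eq_zero_iff]
  obtain ⟨n, y, hn, hy, h⟩ := hx
  refine ⟨n * ℓ, y, fun h => (hp.dvd_mul.mp h).elim hn fun h2 => ?_, hy, ?_⟩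
  · rw [(Nat.prime_dvd_prime_iff_eq hp hℓ).mp h2] at hP
    exact hℓP hP
  · rw [← h]
    push_cast
    rw [nsmul_eq_mul]
    ring

lemma one_notMem_intW {p : ℕ} (hp : p.Prime) : (1 : ℂ) ∉ intW p hp := by
  rintro ⟨n, y, hn, hy, h⟩
  apply hn
  have hp0 : (p : ℂ) ≠ 0 := by exact_mod_cast hp.ne_zero
  have h1 : y = ((n / p : ℚ) : ℂ) := by
    push_cast
    field_simp
    linear_combination -h
  rw [h1] at hy
  have h2 : IsIntegral ℤ ((n : ℚ) / p) := by
    have h3 : Function.Injective (algebraMap ℚ ℂ) := (algebraMap ℚ ℂ).injective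
    rw [← isIntegral_algebraMap_iff (B := ℂ) h3]
    exact hy
  obtain ⟨t, ht⟩ := IsIntegrallyClosed.isIntegral_iff.mp h2
  have hp1 : (p : ℚ) ≠ 0 := by exact_mod_cast hp.ne_zero
  have h4 : (n : ℚ) = p * t := by
    have h5 : (t : ℚ) = n / p := ht
    rw [h5]
    field_simp
  have h5 : (n : ℤ) = p * t := by exact_mod_cast h4
  exact_mod_cast Dvd.intro _ h5.symm

lemma bot_torsion {P : Set ℕ} : TorsionIn P (Multiplicative (ℂ ⧸ (⊥ : AddSubgroup ℂ))) := by
  intro ℓ hℓ _ x hx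
  obtain ⟨x, rfl⟩ := Multiplicative.ofAdd.surjective x
  obtain ⟨x, rfl⟩ := QuotientAddGroup.mk_surjective x
  rw [← ofAdd_nsmul, ← QuotientAddGroup.mk_nsmul, ofAdd_eq_one, QuotientAddGroup.eq_zero_iff,
    AddSubgroup.mem_bot, smul_eq_zero] at hx
  rw [ofAdd_eq_one, QuotientAddGroup.eq_zero_iff, AddSubgroup.mem_bot]
  exact hx.resolve_left hℓ.ne_zero

/-- **Necessity** -/
theorem meets_of_sufficesQ {P : Set ℕ} {𝔉 : Set NF} (h : SufficesQ P 𝔉) {p : ℕ} (hp : Adm P p)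
    (Ω : Type) [Field Ω] [CharZero Ω] [Algebra.IsAlgebraic ℚ Ω] (hΩ : ProElem p Ω) :
    Meets 𝔉 Ω := by
  by_contra hcon
  have hF : ∀ F ∈ 𝔉, IsEmpty (F.K →+* Ω) := by
    intro F hF
    refine ⟨fun f => hcon ⟨F, hF, ⟨f⟩⟩⟩
  let E := AlgebraicClosure Ω
  have hE0 : CharZero E := charZero_of_injective_algebraMap (algebraMap Ω E).injective
  have hE1 : Algebra.IsAlgebraic ℚ E := Algebra.IsAlgebraic.trans ℚ Ω E
  obtain ⟨c, hc⟩ := exists_top (E := E) hΩ
  let j : E →+* ℂ := (IsAlgClosed.lift : E →ₐ[ℚ] ℂ).toRingHom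
  rcases hp with ⟨hpP, hp⟩ | rfl
  · have h1 := h _ (intW_torsion hp hpP) (tvInv (c : E ≃+* E) j (intW p hp)) (by
      intro F hFF L _ _ _ _ χ hχ
      change Multiplicative.ofAdd (QuotientAddGroup.mk _) = 1
      rw [ofAdd_eq_one, QuotientAddGroup.eq_zero_iff]
      obtain ⟨y, hy, h2⟩ := tv_prime j hp hc hχ (hF F hFF)
      exact ⟨1, y, fun h => hp.one_lt.ne' (Nat.dvd_one.mp h), hy, by
        rw [h2, Nat.cast_one, one_mul]⟩)
    change Multiplicative.ofAdd (QuotientAddGroup.mk _) = 1 at h1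
    rw [ofAdd_eq_one, QuotientAddGroup.eq_zero_iff, tv_rat] at h1
    exact one_notMem_intW hp h1
  · have h1 := h _ bot_torsion (tvInv (c : E ≃+* E) j ⊥) (by
      intro F hFF L _ _ _ _ χ hχ
      change Multiplicative.ofAdd (QuotientAddGroup.mk _) = 1
      rw [ofAdd_eq_one, QuotientAddGroup.eq_zero_iff, AddSubgroup.mem_bot]
      exact tv_cyclic j hc hχ (hF F hFF))
    change Multiplicative.ofAdd (QuotientAddGroup.mk _) = 1 at h1
    rw [ofAdd_eq_one, QuotientAddGroup.eq_zero_iff, tv_rat, AddSubgroup.mem_bot] at h1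
    exact one_ne_zero h1

end Pool.Agent.H37.Stk
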