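import Mathlib
import Pool.Agent.H37.Stk.Top

/-!
# Compactness: from the fields with pro-`p`-elementary Galois groups to a finite level
-/

set_option autoImplicit false
set_option linter.unusedSectionVars false

namespace Pool.Agent.H37.Stk

open NumberField Pool.Agent.K4H74.ST Pool.Agent.K4H74.SC Pool.Agent.R389 Filter

lemma IsElem.of_ker {p : ℕ} {G A B : Type} [Group G] [Group A] [Group B] (ρ : G →* A)
    (π : G →* B) (hρ : IsElem p ρ.range) (hπ : Function.Surjective π)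
    (hker : ∀ s, ρ s = 1 → π s = 1) : IsElem p B := by
  obtain ⟨⟨_, s₀, rfl⟩, hc, hp⟩ := hρ
  have key : ∀ s t, ρ s = ρ t → π s = π t := by
    intro s t h
    have h1 := hker (s * t⁻¹) (by rw [map_mul, map_inv, h, mul_inv_cancel])
    rwa [map_mul, map_inv, mul_inv_eq_one] at h1
  refine ⟨π s₀, ?_, ?_⟩
  · rw [Subgroup.mem_center_iff] at hc ⊢
    intro b
    obtain ⟨s, rfl⟩ := hπ b
    have h1 := congrArg Subtype.val (hc ⟨ρ s, s, rfl⟩)
    change ρ s * ρ s₀ = ρ s₀ * ρ s at h1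
    rw [← map_mul, ← map_mul] at h1 ⊢
    exact key _ _ h1
  · intro b
    obtain ⟨s, rfl⟩ := hπ b
    obtain ⟨k, m, hm⟩ := hp ⟨ρ s, s, rfl⟩
    refine ⟨k, m, ?_⟩
    have h1 := congrArg Subtype.val hm
    change (ρ s₀) ^ m = (ρ s) ^ (p ^ k) at h1
    change (π s₀) ^ m = (π s) ^ (p ^ k)
    rw [← map_pow, ← map_zpow] at h1 ⊢
    exact key _ _ h1

section

variable {k Q : Type} [Field k] [CharZero k] [Field Q] [CharZero Q] [Algebra k Q] [IsAlgClosed Q]
  [IsGalois k Q]

variable (E : ∀ N : FiniteGaloisIntermediateField k Q, Subgroup (N ≃ₐ[k] N))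

/-- the preimage in the absolute Galois group -/
noncomputable def pre (N : FiniteGaloisIntermediateField k Q) : Subgroup (Q ≃ₐ[k] Q) :=
  (E N).comap (AlgEquiv.restrictNormalHom N)

/-- the fixed field -/
noncomputable def Fx (N : FiniteGaloisIntermediateField k Q) : IntermediateField k Q :=
  N.toIntermediateField ⊓ IntermediateField.fixedField (pre E N)

lemma mem_Fx {N : FiniteGaloisIntermediateField k Q} {x : Q} :
    x ∈ Fx E N ↔ x ∈ N.toIntermediateField ∧ ∀ s ∈ pre E N, s x = x := by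
  rw [Fx, IntermediateField.mem_inf, IntermediateField.mem_fixedField_iff]

/-- the limit field -/
noncomputable def limF (𝒰 : Ultrafilter (FiniteGaloisIntermediateField k Q)) : IntermediateField k Q where
  carrier := {x | ∀ᶠ N in (𝒰 : Filter _), x ∈ Fx E N}
  mul_mem' := fun ha hb => by
    filter_upwards [ha, hb] with N h1 h2
    exact mul_mem h1 h2
  add_mem' := fun ha hb => by
    filter_upwards [ha, hb] with N h1 h2
    exact add_mem h1 h2
  algebraMap_mem' := fun r => Eventually.of_forall fun N => algebraMap_mem _ r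
  inv_mem' := fun x hx => by
    filter_upwards [hx] with N h1
    exact inv_mem h1

variable {E} {𝒰 : Ultrafilter (FiniteGaloisIntermediateField k Q)}

lemma mem_limF {x : Q} : x ∈ limF E 𝒰 ↔ ∀ᶠ N in (𝒰 : Filter _), x ∈ Fx E N := Iff.rfl

/-- the fixed field as an abstract field -/
noncomputable def FxHom (N : FiniteGaloisIntermediateField k Q) :
    Fx E N →+* IntermediateField.fixedField (E N) where
  toFun x := ⟨⟨x.1, ((mem_Fx E).mp x.2).1⟩, by
    rintro ⟨e, he⟩
    obtain ⟨s, hs⟩ := AlgEquiv.restrictNormalHom_surjective (F := k) (K₁ := N) Q e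
    apply Subtype.ext
    change ((e ⟨x.1, _⟩ : N) : Q) = x.1
    rw [← hs, res_val]
    exact ((mem_Fx E).mp x.2).2 s (by rw [pre, Subgroup.mem_comap, hs]; exact he)⟩
  map_one' := rfl
  map_mul' _ _ := rfl
  map_zero' := rfl
  map_add' _ _ := rfl

/-- fields which do not occur at finite level do not occur in the limit -/
lemma not_meets_limF {𝔉 : Set NF}
    (hE : ∀ᶠ N in (𝒰 : Filter _), ¬ Meets 𝔉 (IntermediateField.fixedField (E N))) :
    ¬ Meets 𝔉 (limF E 𝒰) := by
  rintro ⟨F, hF, ⟨f⟩⟩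
  let b := Module.finBasis ℚ F.K
  have h1 : ∀ᶠ N in (𝒰 : Filter _), ∀ i, ((f (b i) : limF E 𝒰) : Q) ∈ Fx E N := by
    rw [Filter.eventually_all]
    exact fun i => (f (b i)).2
  obtain ⟨N, hN, hEN⟩ := (h1.and hE).exists
  have h2 : ∀ x, ((f x : limF E 𝒰) : Q) ∈ Fx E N := by
    intro x
    let g : F.K →+* Q := (algebraMap (limF E 𝒰) Q).comp f
    have h3 : g x ∈ Fx E N := by
      rw [← b.sum_repr x, map_sum]
      refine sum_mem fun i _ => ?_
      rw [Rat.smul_def, map_mul, map_ratCast]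
      exact mul_mem (SubfieldClass.ratCast_mem _ _) (hN i)
    exact h3
  apply hEN
  refine ⟨F, hF, ⟨(FxHom N).comp ?_⟩⟩
  exact RingHom.codRestrict ((algebraMap (limF E 𝒰) Q).comp f) (Fx E N).toSubring h2

lemma pre_elem {p : ℕ} {N L : FiniteGaloisIntermediateField k Q} (hE : IsElem p (E N))
    (hLN : L ≤ N) : IsElem p ((pre E N).map (AlgEquiv.restrictNormalHom L)) := by
  let ρ : pre E N →* (N ≃ₐ[k] N) := (AlgEquiv.restrictNormalHom N).comp (pre E N).subtype
  have hρ : ρ.range = E N := by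
    ext e
    constructor
    · rintro ⟨s, rfl⟩
      exact s.2
    · intro he
      obtain ⟨s, hs⟩ := AlgEquiv.restrictNormalHom_surjective (F := k) (K₁ := N) Q e
      exact ⟨⟨s, by rw [pre, Subgroup.mem_comap, hs]; exact he⟩, hs⟩
  refine IsElem.of_ker ρ ((AlgEquiv.restrictNormalHom L).subgroupMap (pre E N)) ?_
    ((AlgEquiv.restrictNormalHom L).subgroupMap_surjective (pre E N)) ?_
  · rw [hρ]
    exact hE
  · intro s hs
    apply Subtype.ext
    change AlgEquiv.restrictNormalHom L (s : Q ≃ₐ[k] Q) = 1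
    have h1 : AlgEquiv.restrictNormalHom N (s : Q ≃ₐ[k] Q)
        = AlgEquiv.restrictNormalHom N (1 : Q ≃ₐ[k] Q) := by
      rw [map_one]; exact hs
    rw [← map_one (AlgEquiv.restrictNormalHom (F := k) (K₁ := Q) L), res_eq_iff]
    rw [res_eq_iff] at h1
    exact fun y hy => h1 y (hLN hy)

/-- the limit of the images at a finite level -/
lemma exists_limit {p : ℕ} (hE : ∀ N, IsElem p (E N))
    (h𝒰 : (𝒰 : Filter (FiniteGaloisIntermediateField k Q)) ≤ atTop)
    (L : FiniteGaloisIntermediateField k Q) :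
    ∃ E₀ : Subgroup (L ≃ₐ[k] L), IsElem p E₀ ∧
      (∀ᶠ N in (𝒰 : Filter _), (pre E N).map (AlgEquiv.restrictNormalHom L) = E₀) ∧
      (∀ x : L, (x : Q) ∈ limF E 𝒰 ↔ ∀ s ∈ E₀, s x = x) ∧
      ∀ s : Q ≃ₐ[k] Q, (∀ x ∈ limF E 𝒰, s x = x) → AlgEquiv.restrictNormalHom L s ∈ E₀ := by
  have hfin : Finite (Subgroup (L ≃ₐ[k] L)) := inferInstance
  obtain ⟨E₀, hE₀⟩ := Ultrafilter.eq_pure_of_finite
    (𝒰.map fun N => (pre E N).map (AlgEquiv.restrictNormalHom L))
  have h1 : ∀ᶠ N in (𝒰 : Filter _), (pre E N).map (AlgEquiv.restrictNormalHom L) = E₀ := by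
    have h2 : {E₀} ∈ (𝒰.map fun N => (pre E N).map (AlgEquiv.restrictNormalHom L)) := by
      rw [hE₀]
      exact Set.mem_singleton _
    exact h2
  have h2 : ∀ᶠ N in (𝒰 : Filter _), L ≤ N := h𝒰 (eventually_ge_atTop L)
  have h0 : ∀ x : L, (x : Q) ∈ limF E 𝒰 ↔ ∀ s ∈ E₀, s x = x := by
    intro x
    constructor
    · intro hx s hs
      rw [mem_limF] at hx
      obtain ⟨N, h3, h4⟩ := (hx.and h1).exists
      rw [← h4] at hs
      obtain ⟨t, ht, rfl⟩ := hs
      apply Subtype.ext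
      rw [res_val]
      exact ((mem_Fx E).mp h3).2 t ht
    · intro hx
      rw [mem_limF]
      filter_upwards [h1, h2] with N h3 h4
      rw [mem_Fx]
      refine ⟨h4 x.2, fun t ht => ?_⟩
      have h5 : AlgEquiv.restrictNormalHom L t ∈ E₀ := by
        rw [← h3]
        exact ⟨t, ht, rfl⟩
      have h6 := congrArg (fun z : L => (z : Q)) (hx _ h5)
      have h7 : ((AlgEquiv.restrictNormalHom L t x : L) : Q) = x := h6
      rwa [res_val] at h7
  refine ⟨E₀, ?_, h1, h0, ?_⟩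
  · obtain ⟨N, h3, h4⟩ := (h1.and h2).exists
    rw [← h3]
    exact pre_elem (hE N) h4
  · intro s hs
    rw [← IntermediateField.fixingSubgroup_fixedField E₀, IntermediateField.mem_fixingSubgroup_iff]
    intro x hx
    apply Subtype.ext
    rw [res_val]
    exact hs _ ((h0 x).mpr fun t ht => hx ⟨t, ht⟩)

/-- a criterion -/
lemma proElem_of {p : ℕ} (Ω : IntermediateField k Q)
    (h : ∀ L : FiniteGaloisIntermediateField k Q, ∃ E₀ : Subgroup (L ≃ₐ[k] L), IsElem p E₀ ∧
      ∀ s : Q ≃ₐ[k] Q, (∀ x ∈ Ω, s x = x) → AlgEquiv.restrictNormalHom L s ∈ E₀) :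
    ProElem p Ω := by
  intro N _ _ _ _
  let i : N →ₐ[Ω] Q := IsAlgClosed.lift
  let _ : Algebra N Q := i.toRingHom.toAlgebra
  have hi : ∀ x : N, algebraMap N Q x = i x := fun x => rfl
  have hT : IsScalarTower Ω N Q := IsScalarTower.of_algebraMap_eq fun x => (i.commutes x).symm
  let b := Module.finBasis Ω N
  let Y : Set Q := Set.range fun m => i (b m)
  have hY : Finite Y := inferInstance
  let L := FiniteGaloisIntermediateField.adjoin k Y
  obtain ⟨E₀, hE₀, h1⟩ := h L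
  have hnor : Normal Ω Q := Normal.tower_top_of_normal k Ω Q
  let r : (Q ≃ₐ[Ω] Q) →* (Q ≃ₐ[k] Q) :=
    { toFun := fun s => s.restrictScalars k
      map_one' := rfl
      map_mul' := fun _ _ => rfl }
  have hr : ∀ (s : Q ≃ₐ[Ω] Q) y, r s y = s y := fun s y => rfl
  let ρ : (Q ≃ₐ[Ω] Q) →* (L ≃ₐ[k] L) := (AlgEquiv.restrictNormalHom L).comp r
  have hρ : ρ.range ≤ E₀ := by
    rintro _ ⟨s, rfl⟩
    exact h1 _ fun x hx => s.commutes ⟨x, hx⟩
  refine IsElem.of_ker ρ (AlgEquiv.restrictNormalHom N)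
    (hE₀.of_injective (Subgroup.inclusion hρ) (Subgroup.inclusion_injective hρ))
    (AlgEquiv.restrictNormalHom_surjective Q) ?_
  intro s hs
  have h2 : ∀ y ∈ L.toIntermediateField, s y = y := by
    have h3 : AlgEquiv.restrictNormalHom L (r s)
        = AlgEquiv.restrictNormalHom L (1 : Q ≃ₐ[k] Q) := by
      rw [map_one]; exact hs
    rw [res_eq_iff] at h3
    exact h3
  have h3 : ∀ m, s (i (b m)) = i (b m) := fun m =>
    h2 _ (FiniteGaloisIntermediateField.subset_adjoin k Y ⟨m, rfl⟩)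
  have h4 : ∀ x : N, s (i x) = i x := by
    intro x
    have h5 : (s : Q →ₐ[Ω] Q).toLinearMap ∘ₗ i.toLinearMap = i.toLinearMap := b.ext h3
    exact LinearMap.congr_fun h5 x
  apply AlgEquiv.ext
  intro x
  apply (algebraMap N Q).injective
  have h5 : algebraMap N Q (AlgEquiv.restrictNormalHom N s x) = s (algebraMap N Q x) :=
    AlgEquiv.restrictNormal_commutes s N x
  rw [h5, hi, h4]
  rfl

/-- the limit field has a pro-`p`-elementary Galois group -/
lemma proElem_limF {p : ℕ} (hE : ∀ N, IsElem p (E N))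
    (h𝒰 : (𝒰 : Filter (FiniteGaloisIntermediateField k Q)) ≤ atTop) :
    ProElem p (limF E 𝒰) := by
  apply proElem_of
  intro L
  obtain ⟨E₀, hE₀, -, -, h1⟩ := exists_limit hE h𝒰 L
  exact ⟨E₀, hE₀, h1⟩

end

/-- compactness over any base field -/
lemma exists_level_aux {k Q : Type} [Field k] [CharZero k] [Field Q] [CharZero Q] [Algebra k Q]
    [IsAlgClosed Q] [IsGalois k Q] {p : ℕ} {𝔉 : Set NF}
    (h : ∀ Ω : IntermediateField k Q, ProElem p Ω → Meets 𝔉 Ω) :
    ∃ N : FiniteGaloisIntermediateField k Q, ∀ E : Subgroup (N ≃ₐ[k] N), IsElem p E →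
      Meets 𝔉 (IntermediateField.fixedField E) := by
  by_contra hcon
  push Not at hcon
  choose E hE hbad using hcon
  let 𝒰 : Ultrafilter (FiniteGaloisIntermediateField k Q) := Ultrafilter.of atTop
  have h𝒰 : (𝒰 : Filter (FiniteGaloisIntermediateField k Q)) ≤ atTop := Ultrafilter.of_le _
  have h2 : ProElem p (limF E 𝒰) := proElem_limF hE h𝒰
  have h3 : ¬ Meets 𝔉 (limF E 𝒰) := not_meets_limF (Eventually.of_forall hbad)
  exact h3 (h _ h2)

lemma levelOK_inst {p : ℕ} {𝔉 : Set NF} {L : Type} [Field L] (i i' : Algebra ℚ L)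
    (h : @LevelOK p 𝔉 L _ i) : @LevelOK p 𝔉 L _ i' := by
  rwa [Subsingleton.elim i' i]

lemma isAlg_inst {L : Type} [Field L] (i i' : Algebra ℚ L)
    (h : @Algebra.IsAlgebraic ℚ L _ _ i) : @Algebra.IsAlgebraic ℚ L _ _ i' := by
  rwa [Subsingleton.elim i' i]

lemma isGal_inst {L : Type} [Field L] (i i' : Algebra ℚ L)
    (h : @IsGalois ℚ _ L _ i) : @IsGalois ℚ _ L _ i' := by
  rwa [Subsingleton.elim i' i]

lemma finDim_inst {L : Type} [Field L] (i i' : Algebra ℚ L)
    (h : @FiniteDimensional ℚ L _ _ (@Algebra.toModule _ _ _ _ i)) :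
    @FiniteDimensional ℚ L _ _ (@Algebra.toModule _ _ _ _ i') := by
  rwa [Subsingleton.elim i' i]

/-- **Compactness** -/
theorem exists_level {p : ℕ} {𝔉 : Set NF}
    (h : ∀ (Ω : Type) [Field Ω] [CharZero Ω] [Algebra.IsAlgebraic ℚ Ω], ProElem p Ω → Meets 𝔉 Ω) :
    ∃ (L : Type) (_ : Field L) (_ : NumberField L) (_ : IsGalois ℚ L), LevelOK p 𝔉 L := by
  obtain ⟨Q, i0, i1, hQ⟩ : ∃ (Q : Type) (_ : Field Q) (i : Algebra ℚ Q), IsAlgClosure ℚ Q :=
    ⟨AlgebraicClosure ℚ, inferInstance, AlgebraicClosure.instAlgebra ℚ, inferInstance⟩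
  have hQ1 : IsAlgClosed Q := hQ.isAlgClosed
  have hQ2 : Algebra.IsAlgebraic ℚ Q := hQ.isAlgebraic
  have hQ3 : CharZero Q := charZero_of_injective_algebraMap (algebraMap ℚ Q).injective
  have hQ4 : Normal ℚ Q := IsAlgClosure.normal ℚ Q
  have hQ5 : @IsGalois ℚ _ Q _ i1 := ⟨⟩
  obtain ⟨N, hN⟩ := @exists_level_aux ℚ Q _ _ _ _ i1 _ hQ5 p 𝔉 (fun Ω hΩ => by
    have h4 := @isAlg_inst Ω _ Ω.algebra' DivisionRing.toRatAlgebra
      (@IntermediateField.isAlgebraic_tower_bot ℚ Q _ _ _ Ω hQ2)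
    exact h Ω hΩ)
  have h1 := @finDim_inst N _ N.algebra' DivisionRing.toRatAlgebra N.finiteDimensional
  have h2 := @isGal_inst N _ N.algebra' DivisionRing.toRatAlgebra N.isGalois
  have h3 : NumberField N := ⟨⟩
  exact ⟨N, inferInstance, h3, h2, levelOK_inst _ _ hN⟩

end Pool.Agent.H37.Stk
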