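import Mathlib
import Pool.Agent.H37.Stk.Cpt

/-!
# The field of real algebraic numbers
-/

set_option autoImplicit false
set_option linter.unusedSectionVars false

namespace Pool.Agent.H37.Stk

open NumberField Pool.Agent.K4H74.ST Pool.Agent.K4H74.SC Pool.Agent.R389 Filter

/-- the field of the real algebraic numbers -/
abbrev RealAlg : Type := algebraicClosure ℚ ℝ

/-- compactness over any base field, with an exceptional field -/
lemma exists_level_real_aux {k Q : Type} [Field k] [CharZero k] [Field Q] [CharZero Q] [Algebra k Q]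
    [IsAlgClosed Q] [IsGalois k Q] {p : ℕ} {𝔉 : Set NF}
    (h : ∀ Ω : IntermediateField k Q, ProElem p Ω → ¬ Meets 𝔉 Ω →
      ∃ φ : Q →+* ℂ, ∀ y, y ∈ Ω ↔ star (φ y) = φ y)
    (L : FiniteGaloisIntermediateField k Q) :
    ∃ N : FiniteGaloisIntermediateField k Q, L ≤ N ∧ ∀ E : Subgroup (N ≃ₐ[k] N), IsElem p E →
      ¬ Meets 𝔉 (IntermediateField.fixedField E) →
      ∃ φ : Q →+* ℂ, ∀ y : N, (y : Q) ∈ L.toIntermediateField →
        ((∀ s ∈ E, s y = y) ↔ star (φ y) = φ y) := by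
  classical
  by_contra hcon
  push Not at hcon
  have h1 : ∀ N : FiniteGaloisIntermediateField k Q, ∃ E : Subgroup (N ≃ₐ[k] N),
      IsElem p E ∧ (L ≤ N → ¬ Meets 𝔉 (IntermediateField.fixedField E) ∧
        ∀ φ : Q →+* ℂ, ∃ y : N, (y : Q) ∈ L.toIntermediateField ∧
        ¬ ((∀ s ∈ E, s y = y) ↔ star (φ y) = φ y)) := by
    intro N
    by_cases hN : L ≤ N
    · obtain ⟨E, hE, hb, h2⟩ := hcon N hN
      refine ⟨E, hE, fun _ => ⟨hb, fun φ => ?_⟩⟩
      obtain ⟨y, hy, h3⟩ := h2 φ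
      refine ⟨y, hy, fun h4 => ?_⟩
      rcases h3 with ⟨h5, h6⟩ | ⟨⟨s, hs, h5⟩, h6⟩
      · exact h6 (h4.mp h5)
      · exact h5 (h4.mpr h6 s hs)
    · refine ⟨⊥, ⟨1, one_mem _, fun g => ⟨0, ?_⟩⟩, fun h => absurd h hN⟩
      rw [Subsingleton.elim g 1, one_pow]
      exact one_mem _
  choose E hE hE2 using h1
  let 𝒰 : Ultrafilter (FiniteGaloisIntermediateField k Q) := Ultrafilter.of atTop
  have h𝒰 : (𝒰 : Filter (FiniteGaloisIntermediateField k Q)) ≤ atTop := Ultrafilter.of_le _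
  have hL : ∀ᶠ N in (𝒰 : Filter _), L ≤ N := h𝒰 (eventually_ge_atTop L)
  have h2 : ProElem p (limF E 𝒰) := proElem_limF hE h𝒰
  have h3 : ¬ Meets 𝔉 (limF E 𝒰) := not_meets_limF (by
    filter_upwards [hL] with N hN
    exact (hE2 N hN).1)
  obtain ⟨φ, hφ⟩ := h _ h2 h3
  obtain ⟨E₀, -, h4, h5, -⟩ := exists_limit hE h𝒰 L
  obtain ⟨N, h6, h7⟩ := (h4.and hL).exists
  obtain ⟨y, hyL, hy⟩ := (hE2 N h7).2 φ
  apply hy
  rw [← hφ, h5 ⟨y, hyL⟩]
  constructor
  · intro h8 s hs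
    rw [← h6] at hs
    obtain ⟨t, ht, rfl⟩ := hs
    apply Subtype.ext
    rw [res_val]
    have h9 := congrArg (fun z : N => (z : Q)) (h8 _ ht)
    have h10 : ((AlgEquiv.restrictNormalHom N t y : N) : Q) = y := h9
    rwa [res_val] at h10
  · intro h8 s hs
    obtain ⟨t, ht⟩ := AlgEquiv.restrictNormalHom_surjective (F := k) (K₁ := N) Q s
    have h9 := h8 (AlgEquiv.restrictNormalHom L t) (by
      rw [← h6]
      refine ⟨t, ?_, rfl⟩
      rw [SetLike.mem_coe, pre, Subgroup.mem_comap, ht]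
      exact hs)
    have h10 := congrArg (fun z : L => (z : Q)) h9
    have h11 : ((AlgEquiv.restrictNormalHom L t ⟨(y : Q), hyL⟩ : L) : Q) = y := h10
    rw [res_val] at h11
    apply Subtype.ext
    rw [← ht, res_val]
    exact h11

/-- A bad `p`-elementary subgroup of the Galois group of `N` looks on the subfield `L` like a
complex conjugation. -/
def RelOK (p : ℕ) (𝔉 : Set NF) (L N : Type) [Field L] [Field N] [Algebra ℚ N] (i : L →+* N) :
    Prop :=
  ∀ E : Subgroup (N ≃ₐ[ℚ] N), IsElem p E → ¬ Meets 𝔉 (IntermediateField.fixedField E) →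
    ∃ φ : N →+* ℂ, ∀ x : L, (∀ s ∈ E, s (i x) = i x) ↔ star (φ (i x)) = φ (i x)

lemma relOK_inst {p : ℕ} {𝔉 : Set NF} {L N : Type} [Field L] [Field N] (i : L →+* N)
    (a a' : Algebra ℚ N) (h : @RelOK p 𝔉 L N _ _ a i) : @RelOK p 𝔉 L N _ _ a' i := by
  rwa [Subsingleton.elim a' a]

/-- the exceptional field -/
lemma exists_real_emb {Q : Type} [Field Q] [CharZero Q] [Algebra.IsAlgebraic ℚ Q]
    (Ω : Subfield Q) (e : Nonempty (Ω ≃+* RealAlg)) :
    ∃ φ : Q →+* ℂ, ∀ y, y ∈ Ω ↔ star (φ y) = φ y := by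
  obtain ⟨e⟩ := e
  let θ : Ω →+* ℂ := ((algebraMap ℝ ℂ).comp (algebraMap RealAlg ℝ)).comp (e : Ω →+* RealAlg)
  let _ : Algebra Ω ℂ := θ.toAlgebra
  have h1 : Algebra.IsAlgebraic Ω Q := Algebra.IsAlgebraic.tower_top (K := ℚ) Ω
  let φ : Q →ₐ[Ω] ℂ := IsAlgClosed.lift
  have hφ : ∀ y : Ω, φ (y : Q) = ((e y : ℝ) : ℂ) := fun y => φ.commutes y
  refine ⟨φ.toRingHom, fun y => ⟨fun hy => ?_, fun hy => ?_⟩⟩
  · change star (φ y) = φ y
    rw [hφ ⟨y, hy⟩]
    exact Complex.conj_ofReal _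
  · change star (φ y) = φ y at hy
    have h2 : ((φ y).re : ℂ) = φ y := Complex.conj_eq_iff_re.mp hy
    have h3 : IsAlgebraic ℚ (φ y) :=
      (isAlgebraic_algHom_iff (φ.toRingHom.toRatAlgHom) φ.toRingHom.injective).mpr
        (Algebra.IsAlgebraic.isAlgebraic (R := ℚ) y)
    have h4 : IsAlgebraic ℚ ((φ y).re) := by
      rw [← h2] at h3
      exact (isAlgebraic_algebraMap_iff (A := ℂ) (algebraMap ℝ ℂ).injective).mp h3
    let z : RealAlg := ⟨(φ y).re, mem_algebraicClosure_iff.mpr h4⟩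
    have h5 : φ ((e.symm z : Ω) : Q) = φ y := by
      rw [hφ, RingEquiv.apply_symm_apply]
      exact h2
    rw [← φ.injective h5]
    exact (e.symm z).2

end Pool.Agent.H37.Stk
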