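import Mathlib
import Pool.Agent.H37.Stk.Rea
import Pool.Graph.R_pool_sql_team_seeded_c8625f6e.K4H74.ST.Fin

/-!
# Invariants which are trivial on the trivial characters: the exceptional field
-/

set_option autoImplicit false
set_option linter.unusedSectionVars false

namespace Pool.Agent.H37.Stk

open NumberField NumberField.ComplexEmbedding Pool.Agent.K4H74.ST Pool.Agent.K4H74.SC
  Pool.Agent.R389 Filter

theorem exists_level_real {p : ℕ} {𝔉 : Set NF}
    (h : ∀ (Ω : Type) [Field Ω] [CharZero Ω] [Algebra.IsAlgebraic ℚ Ω], ProElem p Ω →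
      IsEmpty (Ω ≃+* RealAlg) → Meets 𝔉 Ω) (L : Type) [Field L] [NumberField L] :
    ∃ (N : Type) (_ : Field N) (_ : NumberField N) (_ : IsGalois ℚ N) (i : L →+* N),
      RelOK p 𝔉 L N i := by
  obtain ⟨Q, i0, i1, hQ⟩ : ∃ (Q : Type) (_ : Field Q) (i : Algebra ℚ Q), IsAlgClosure ℚ Q :=
    ⟨AlgebraicClosure ℚ, inferInstance, AlgebraicClosure.instAlgebra ℚ, inferInstance⟩
  have hQ1 : IsAlgClosed Q := hQ.isAlgClosed
  have hQ2 : Algebra.IsAlgebraic ℚ Q := hQ.isAlgebraic
  have hQ3 : CharZero Q := charZero_of_injective_algebraMap (algebraMap ℚ Q).injective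
  have hQ4 : Normal ℚ Q := IsAlgClosure.normal ℚ Q
  have hQ5 : @IsGalois ℚ _ Q _ i1 := ⟨⟩
  have hQ6 := @isAlg_inst Q _ i1 DivisionRing.toRatAlgebra hQ2
  let j : L →+* Q := ((IsAlgClosed.lift : L →ₐ[ℚ] Q) : L →+* Q)
  let b := Module.finBasis ℚ L
  let Y : Set Q := Set.range fun m => j (b m)
  have hY : Finite Y := inferInstance
  let L₀ : FiniteGaloisIntermediateField ℚ Q := FiniteGaloisIntermediateField.adjoin ℚ Y
  have hj : ∀ x : L, j x ∈ L₀.toIntermediateField := by
    intro x
    rw [← b.sum_repr x, map_sum]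
    refine sum_mem fun m _ => ?_
    rw [Rat.smul_def, map_mul, map_ratCast]
    exact mul_mem (SubfieldClass.ratCast_mem _ _)
      (FiniteGaloisIntermediateField.subset_adjoin ℚ Y ⟨m, rfl⟩)
  obtain ⟨N, hLN, hN⟩ := @exists_level_real_aux ℚ Q _ _ _ _ i1 _ hQ5 p 𝔉 (fun Ω hΩ hm => by
    have h4 := @isAlg_inst Ω _ Ω.algebra' DivisionRing.toRatAlgebra
      (@IntermediateField.isAlgebraic_tower_bot ℚ Q _ _ _ Ω hQ2)
    have h5 : Nonempty (Ω ≃+* RealAlg) := by
      by_contra h6
      rw [not_nonempty_iff] at h6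
      exact hm (h Ω hΩ h6)
    exact exists_real_emb Ω.toSubfield h5) L₀
  have h1 := @finDim_inst N _ N.algebra' DivisionRing.toRatAlgebra N.finiteDimensional
  have h2 := @isGal_inst N _ N.algebra' DivisionRing.toRatAlgebra N.isGalois
  have h3 : NumberField N := ⟨⟩
  let i : L →+* N := RingHom.codRestrict j N.toIntermediateField.toSubfield.toSubring
    (fun x => hLN (hj x))
  refine ⟨N, inferInstance, h3, h2, i, @relOK_inst p 𝔉 L N _ _ i N.algebra' _ ?_⟩
  intro E hE hb
  obtain ⟨φ, hφ⟩ := hN E hE hb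
  refine ⟨φ.comp (algebraMap N Q), fun x => ?_⟩
  exact hφ (i x) (hj x)

/-- values of characters at involutions -/
lemma char_invol {G : Type} [Group G] {f : G → ℂ} (hf : IsChar f) {c : G} (hc : c * c = 1) :
    ∃ a b : ℕ, f 1 = a + b ∧ f c = a - b := by
  obtain ⟨V, _, _, _, ρ, rfl⟩ := hf
  change ∃ a b : ℕ, LinearMap.trace ℂ V (ρ 1) = a + b ∧ LinearMap.trace ℂ V (ρ c) = a - b
  have hcc : ρ c * ρ c = 1 := by rw [← map_mul, hc, map_one]
  have key : ∀ e : ℂ, e * e = 1 → ∃ a : ℕ,
      LinearMap.trace ℂ V (ρ 1) + e * LinearMap.trace ℂ V (ρ c) = 2 * a := by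
    intro e he
    let P : V →ₗ[ℂ] V := (1 / 2 : ℂ) • (1 + e • ρ c)
    have hP : IsIdempotentElem P := by
      change P * P = P
      simp only [P, mul_add, add_mul, mul_one, one_mul, mul_smul_comm,
        smul_mul_assoc, hcc, smul_smul]
      match_scalars
      · linear_combination (1 / 4 : ℂ) * he
      · ring
    have h1 := LinearMap.IsProj.trace (LinearMap.IsIdempotentElem.isProj_range P hP)
    refine ⟨Module.finrank ℂ (LinearMap.range P), ?_⟩
    rw [← h1]
    simp only [P, map_smul, map_add, smul_eq_mul]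
    rw [map_one ρ]
    ring
  obtain ⟨a, ha⟩ := key 1 (by ring)
  obtain ⟨b, hb⟩ := key (-1) (by ring)
  refine ⟨a, b, ?_, ?_⟩
  · linear_combination (ha + hb) / 2
  · linear_combination (ha - hb) / 2

section

variable {M : Type} [CommGroup M] (A : ArtinInvariant M)

/-- the values are torsion prime to `p` -/
theorem pow_val_real {p : ℕ} (hp : p.Prime ∨ p = 1) {𝔉 : Set NF}
    (hA : ∀ F ∈ 𝔉, TrivialOver A F.K) (hR : TrivOne A)
    (h₀ : ∀ (L : Type) [Field L] [NumberField L],
      ∃ (N : Type) (_ : Field N) (_ : NumberField N) (_ : IsGalois ℚ N) (i : L →+* N),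
        RelOK p 𝔉 L N i)
    {L : Type} [Field L] [NumberField L] [IsGalois ℚ L] {j : L} (hj : j * j = -1)
    {f : (L ≃ₐ[ℚ] L) → ℂ} (hf : IsChar f) :
    ∃ n : ℤ, n ≠ 0 ∧ (p.Prime → ¬ (p : ℤ) ∣ n) ∧ A.val ℚ L f ^ n = 1 := by
  obtain ⟨N, _, _, _, i, hN⟩ := h₀ L
  let _ : Algebra L N := i.toAlgebra
  have hi : ∀ x, algebraMap L N x = i x := fun x => rfl
  let π : (N ≃ₐ[ℚ] N) →* (L ≃ₐ[ℚ] L) := AlgEquiv.restrictNormalHom L
  have hπ : ∀ (g : N ≃ₐ[ℚ] N) (x : L), i (π g x) = g (i x) := fun g x => res_apply g x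
  obtain ⟨s, hs, hsC⟩ := odd_i (K := ℚ) hj
  obtain ⟨φ₀⟩ : Nonempty (L →+* ℂ) := inferInstance
  obtain ⟨c₀, hc₀⟩ := exists_conj (K := ℚ) (φ := φ₀) (by
    have : IsReal (φ₀.comp (algebraMap ℚ L)) := by
      ext x
      change star ((φ₀.comp (algebraMap ℚ L)) x) = (φ₀.comp (algebraMap ℚ L)) x
      rw [eq_ratCast]
      simp
    exact this)
  obtain ⟨a, b, hab, hab'⟩ := char_invol hf (isConj_sq hc₀)
  have hfin : FiniteDimensional ℚ N := inferInstance
  have hfπ : IsChar (fun g => f (π g)) := IsChar.comp' hf π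
  let s' : (N ≃ₐ[ℚ] N) →* ℂˣ := s.comp π
  have hs' : Sg s' := fun g => hs _
  let f' : (N ≃ₐ[ℚ] N) → ℂ := (fun g => f (π g)) - (a • lc 1 + b • lc s')
  have hf'g : ∀ g, f' g = f (π g) - (a + b * ((s (π g) : ℂˣ) : ℂ)) := by
    intro g
    simp only [f', Pi.sub_apply, Pi.add_apply, nsmul_eq_mul]
    simp [lc, s']
  have hcl : ∀ g x : N ≃ₐ[ℚ] N, f' (x * g * x⁻¹) = f' g := by
    intro g x
    rw [hf'g, hf'g, map_mul, map_mul, map_inv, IsChar.class hf, map_mul, map_mul, map_inv,
      mul_comm (s (π x)), mul_inv_cancel_right]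
  obtain ⟨n, hn0, hn, hnf⟩ := exists_el_class (p := p) hp (f := f') hcl
    (TT A (K := ℚ) (L := N) ⊥) (by
      intro V ψ hV
      by_cases hm : Meets 𝔉 (IntermediateField.fixedField V)
      · have key : ∀ {θ : V → ℂ}, IsChar θ → ind V θ ∈ TT A (K := ℚ) (L := N) ⊥ := by
          intro θ hθ
          rw [mem_TT_char A (isChar_ind V hθ), Subgroup.mem_bot]
          exact val_ind_good A hA V hm hθ
        have h1 : (fun h : V => ((ψ h : ℂˣ) : ℂ) * f' h)
            = (fun h : V => ((ψ h : ℂˣ) : ℂ) * f (π h))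
              - (a • (fun h : V => ((ψ h : ℂˣ) : ℂ)) + b • (fun h : V => (((ψ * s'.comp V.subtype) h : ℂˣ) : ℂ))) := by
          funext h
          change ((ψ h : ℂˣ) : ℂ) * f' h = ((ψ h : ℂˣ) : ℂ) * f (π h)
            - (a • ((ψ h : ℂˣ) : ℂ) + b • ((ψ h * s (π h) : ℂˣ) : ℂ))
          rw [hf'g, nsmul_eq_mul, nsmul_eq_mul, Units.val_mul]
          ring
        have h2 : ∀ u v : V → ℂ, ind V (u + v) = ind V u + ind V v := fun u v =>
          map_add (indHom V) u v
        have h3 : ∀ (m : ℕ) (u : V → ℂ), ind V (m • u) = m • ind V u := fun m u =>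
          map_nsmul (indHom V) m u
        rw [h1, ind_sub, h2, h3, h3]
        refine sub_mem (key ?_) (add_mem (nsmul_mem (key (IsChar.lc ψ)) a)
          (nsmul_mem (key (IsChar.lc (ψ * s'.comp V.subtype))) b))
        exact IsChar.tw (IsChar.comp' hfπ V.subtype) ψ
      · obtain ⟨φ, hφ⟩ := hN V hV hm
        obtain ⟨c, hc⟩ := exists_conj (K := ℚ) (φ := φ.comp i) (by
          have : IsReal ((φ.comp i).comp (algebraMap ℚ L)) := by
            ext x
            change star (((φ.comp i).comp (algebraMap ℚ L)) x) = _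
            rw [eq_ratCast]
            simp
          exact this)
        have h1 : ∀ v ∈ V, π v = 1 ∨ π v = c := by
          intro v hv
          have h2 : π v ∈ Subgroup.zpowers c := by
            rw [← IntermediateField.fixingSubgroup_fixedField (Subgroup.zpowers c),
              IntermediateField.mem_fixingSubgroup_iff]
            intro x hx
            have h3 : c x = x := hx ⟨c, Subgroup.mem_zpowers c⟩
            have h4 : star (φ (i x)) = φ (i x) := by
              have h5 := hc.eq x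
              rw [h3] at h5
              exact h5.symm
            apply i.injective
            rw [hπ]
            exact (hφ x).mpr h4 v hv
          have h5 := isConj_sq hc
          obtain ⟨m, hm⟩ := h2
          simp only at hm
          rcases Int.even_or_odd' m with ⟨l, rfl | rfl⟩
          · left
            rw [← hm, zpow_mul, zpow_two, h5, one_zpow]
          · right
            rw [← hm, zpow_add, zpow_mul, zpow_two, h5, one_zpow, one_mul, zpow_one]
        have h2 : f c = f c₀ := by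
          obtain ⟨σ, hσ⟩ := ComplexEmbedding.exists_comp_symm_eq_of_comp_eq (k := ℚ) φ₀ (φ.comp i)
            (Subsingleton.elim _ _)
          have h4 := hc₀.comp σ.symm
          have h5 : (φ₀.comp ((σ.symm : L ≃ₐ[ℚ] L) : L →+* L)) = φ.comp i := hσ
          rw [h5] at h4
          have h6 := h4.ext hc
          rw [← h6]
          have h7 := IsChar.class hf c₀ (σ.symm)⁻¹
          rwa [inv_inv] at h7
        have h3 : ∀ v ∈ V, f' v = 0 := by
          intro v hv
          rw [hf'g]
          rcases h1 v hv with h4 | h4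
          · rw [h4, hab, map_one]
            simp
          · rw [h4, h2, hab', hsC c ⟨_, hc⟩, Units.val_neg, Units.val_one]
            ring
        have h4 : (fun h : V => ((ψ h : ℂˣ) : ℂ) * f' h) = 0 := by
          funext h
          rw [h3 h h.2, mul_zero]
          rfl
        rw [h4, ind_zero]
        exact zero_mem _)
  refine ⟨n, hn0, hn, ?_⟩
  have h1 : n • (fun g => f (π g)) ∈ TT A (K := ℚ) (L := N) ⊥ := by
    have h2 : n • (fun g => f (π g)) = n • f' + n • (a • lc 1 + b • lc s') := by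
      rw [← smul_add]
      congr 1
      simp only [f']
      abel
    rw [h2]
    refine add_mem hnf (zsmul_mem (add_mem (nsmul_mem ?_ a) (nsmul_mem ?_ b)) n)
    · rw [mem_TT_char A (IsChar.lc _), Subgroup.mem_bot]
      exact val_one hR
    · rw [mem_TT_char A (IsChar.lc _), Subgroup.mem_bot]
      exact val_sign hR hs'
  obtain ⟨v, hv, h3⟩ := h1
  rw [Subgroup.mem_bot] at hv
  subst hv
  rw [← A.val_infl ℚ L N f hf]
  exact (Val.zsmul A (Val.of_char A hfπ) n).unique A h3

end

end Pool.Agent.H37.Stk
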