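import Mathlib
import Pool.Agent.H37.Stk.Rea2

/-!
# The main theorem, and the families of fields without embeddings in given fields
-/

set_option autoImplicit false
set_option linter.unusedSectionVars false

namespace Pool.Agent.H37.Stk

open NumberField Pool.Agent.K4H74.ST Pool.Agent.K4H74.SC Pool.Agent.R389 Filter

lemma exists_big_i (L : Type) [Field L] [NumberField L] :
    ∃ (N : Type) (_ : Field N) (_ : NumberField N) (_ : IsGalois ℚ N), Nonempty (L →+* N) ∧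
      ∃ j : N, j * j = -1 := by
  obtain ⟨N₀, _, _, _, ⟨i⟩, -⟩ := exists_big L L
  obtain ⟨N, i1, i2, i3, i4, i5, i6, hN⟩ := exists_ext ℚ N₀ {-1}
  obtain ⟨j, hj⟩ := hN (-1) (by simp)
  rw [map_neg, map_one] at hj
  exact ⟨N, i1, i2, isGal_inst _ _ i6, ⟨(algebraMap N₀ N).comp i⟩, j, hj⟩

/-- **Sufficiency, for invariants which are trivial on the trivial characters** -/
theorem trivial_of_real {P : Set ℕ} {𝔉 : Set NF}
    (h : ∀ p, Adm P p → ∀ (Ω : Type) [Field Ω] [CharZero Ω] [Algebra.IsAlgebraic ℚ Ω],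
      ProElem p Ω → IsEmpty (Ω ≃+* RealAlg) → Meets 𝔉 Ω)
    {M : Type} [CommGroup M] (hM : TorsionIn P M) (A : ArtinInvariant M)
    (hA : ∀ F ∈ 𝔉, TrivialOver A F.K) (hR : TrivOne A) (K : Type) [Field K] [NumberField K] :
    TrivialOver A K := by
  intro L _ _ _ _ χ hχ
  obtain ⟨N, _, _, _, ⟨i⟩, j, hj⟩ := exists_big_i L
  let _ : Algebra L N := i.toAlgebra
  let _ : Algebra K N := ((algebraMap L N).comp (algebraMap K L)).toAlgebra
  have h1 : IsScalarTower K L N := IsScalarTower.of_algebraMap_eq fun x => rfl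
  have h2 : IsGalois K N := IsGalois.tower_top_of_isGalois ℚ K N
  rw [← A.val_infl K L N χ hχ]
  have hχ' : IsChar (fun g : N ≃ₐ[K] N => χ (AlgEquiv.restrictNormalHom L g)) :=
    IsChar.comp' hχ (AlgEquiv.restrictNormalHom L)
  rw [← A.val_ind ℚ K N _ hχ']
  have hf := isChar_indChar (K := ℚ) hχ'
  apply eq_one_of_torsion hM
  · obtain ⟨n, h1, -, h2⟩ := pow_val_real A (Or.inr rfl) hA hR
      (fun L => exists_level_real (h 1 (Or.inr rfl)) L) hj hf
    exact ⟨n, h1, h2⟩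
  · intro p hpP hp
    obtain ⟨n, -, h1, h2⟩ := pow_val_real A (Or.inl hp) hA hR
      (fun L => exists_level_real (h p (Or.inl ⟨hpP, hp⟩)) L) hj hf
    exact ⟨n, h1 hp, h2⟩

/-- algebraic extensions of fields with pro-`p`-elementary Galois groups -/
lemma ProElem.of_alg {p : ℕ} {Ω Ω' : Type} [Field Ω] [CharZero Ω] [Field Ω'] [CharZero Ω']
    [Algebra Ω Ω'] [Algebra.IsAlgebraic Ω Ω'] (h : ProElem p Ω) : ProElem p Ω' := by
  intro N _ _ _ _
  let Q := AlgebraicClosure Ω'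
  have hQ0 : Algebra.IsAlgebraic Ω Q := Algebra.IsAlgebraic.trans Ω Ω' Q
  have hQ1 : IsAlgClosure Ω Q := ⟨inferInstance, inferInstance⟩
  have hQ2 : Normal Ω Q := IsAlgClosure.normal Ω Q
  have hQ3 : IsGalois Ω Q := ⟨⟩
  have hQ4 : CharZero Q := charZero_of_injective_algebraMap (algebraMap Ω' Q).injective
  let i : N →ₐ[Ω'] Q := IsAlgClosed.lift
  let _ : Algebra N Q := i.toRingHom.toAlgebra
  have hi : ∀ x : N, algebraMap N Q x = i x := fun x => rfl
  have hT : IsScalarTower Ω' N Q := IsScalarTower.of_algebraMap_eq fun x => (i.commutes x).symm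
  let b := Module.finBasis Ω' N
  let Y : Set Q := Set.range fun m => i (b m)
  have hY : Finite Y := inferInstance
  let L := FiniteGaloisIntermediateField.adjoin Ω Y
  have hL : IsElem p (L ≃ₐ[Ω] L) := h L
  have hnor : Normal Ω' Q := IsAlgClosure.normal Ω' Q
  let r : (Q ≃ₐ[Ω'] Q) →* (Q ≃ₐ[Ω] Q) :=
    { toFun := fun s => s.restrictScalars Ω
      map_one' := rfl
      map_mul' := fun _ _ => rfl }
  let ρ : (Q ≃ₐ[Ω'] Q) →* (L ≃ₐ[Ω] L) := (AlgEquiv.restrictNormalHom L).comp r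
  refine IsElem.of_ker ρ (AlgEquiv.restrictNormalHom N)
    (hL.of_injective ρ.range.subtype ρ.range.subtype_injective)
    (AlgEquiv.restrictNormalHom_surjective Q) ?_
  intro s hs
  have h2 : ∀ y ∈ L.toIntermediateField, s y = y := by
    have h3 : AlgEquiv.restrictNormalHom L (r s)
        = AlgEquiv.restrictNormalHom L (1 : Q ≃ₐ[Ω] Q) := by
      rw [map_one]; exact hs
    rw [res_eq_iff] at h3
    exact h3
  have h3 : ∀ m, s (i (b m)) = i (b m) := fun m =>
    h2 _ (FiniteGaloisIntermediateField.subset_adjoin Ω Y ⟨m, rfl⟩)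
  have h4 : ∀ x : N, s (i x) = i x := by
    intro x
    have h5 : (s : Q →ₐ[Ω'] Q).toLinearMap ∘ₗ i.toLinearMap = i.toLinearMap := b.ext h3
    exact LinearMap.congr_fun h5 x
  apply AlgEquiv.ext
  intro x
  apply (algebraMap N Q).injective
  have h5 : algebraMap N Q (AlgEquiv.restrictNormalHom N s x) = s (algebraMap N Q x) :=
    AlgEquiv.restrictNormal_commutes s N x
  rw [h5, hi, h4]
  rfl

lemma ProElem.of_hom {p : ℕ} {Ω Ω' : Type} [Field Ω] [CharZero Ω] [Field Ω'] [CharZero Ω']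
    [Algebra.IsAlgebraic ℚ Ω'] (i : Ω →+* Ω') (h : ProElem p Ω) : ProElem p Ω' := by
  let _ : Algebra Ω Ω' := i.toAlgebra
  have h1 : Algebra.IsAlgebraic Ω Ω' := Algebra.IsAlgebraic.tower_top (K := ℚ) Ω
  exact h.of_alg

/-- an algebraic field all of whose number fields embed in one of finitely many fields -/
lemma exists_embedding {J : Type} [Finite J] (E : J → Type) [∀ j, Field (E j)]
    [∀ j, CharZero (E j)] {Ω : Type} [Field Ω] [CharZero Ω] [Algebra.IsAlgebraic ℚ Ω]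
    (h : ∀ (F : Type) [Field F] [NumberField F], Nonempty (F →+* Ω) → ∃ j, Nonempty (F →+* E j)) :
    ∃ j, Nonempty (Ω →+* E j) := by
  classical
  have : Fintype J := Fintype.ofFinite J
  have h1 : ∀ S : Finset Ω, ∃ j, Nonempty (IntermediateField.adjoin ℚ (S : Set Ω) →+* E j) := by
    intro S
    let F := IntermediateField.adjoin ℚ (S : Set Ω)
    have hfd : FiniteDimensional ℚ F :=
      IntermediateField.finiteDimensional_adjoin (fun x _ =>
        (Algebra.IsAlgebraic.isAlgebraic (R := ℚ) x).isIntegral)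
    have hfd' := @finDim_inst F _ F.algebra' DivisionRing.toRatAlgebra hfd
    have hnf : NumberField F := ⟨⟩
    exact h F ⟨algebraMap F Ω⟩
  have h2 : ∃ j, ∀ S : Finset Ω, ∃ S' : Finset Ω, S ⊆ S' ∧
      Nonempty (IntermediateField.adjoin ℚ (S' : Set Ω) →+* E j) := by
    by_contra hcon
    push Not at hcon
    choose S hS using hcon
    obtain ⟨j, hj⟩ := h1 (Finset.univ.biUnion S)
    exact (not_isEmpty_iff.mpr hj) (hS j _ (Finset.subset_biUnion_of_mem S (Finset.mem_univ j)))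
  obtain ⟨j, hj⟩ := h2
  refine ⟨j, ?_⟩
  have h3 : Nonempty (Ω →ₐ[ℚ] E j) := by
    apply IntermediateField.Lifts.nonempty_algHom_of_exist_lifts_finset
    intro S
    obtain ⟨S', hS, ⟨f⟩⟩ := hj S
    exact ⟨⟨IntermediateField.adjoin ℚ (S' : Set Ω), f.toRatAlgHom⟩,
      fun x hx => IntermediateField.subset_adjoin ℚ _ (hS hx)⟩
  obtain ⟨f⟩ := h3
  exact ⟨f⟩

lemma LevelOK.up {p : ℕ} {𝔉 : Set NF} {L N : Type} [Field L] [NumberField L] [IsGalois ℚ L]
    [Field N] [NumberField N] [IsGalois ℚ N] (i : L →+* N) (h : LevelOK p 𝔉 L) :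
    LevelOK p 𝔉 N := by
  let _ : Algebra L N := i.toAlgebra
  intro V hV
  let r : (N ≃ₐ[ℚ] N) →* (L ≃ₐ[ℚ] L) := AlgEquiv.restrictNormalHom L
  have h4 : IsElem p (V.map r) :=
    hV.of_surjective (r.subgroupMap V) (r.subgroupMap_surjective V)
  refine (h _ h4).mono ?_
  refine RingHom.codRestrict ((algebraMap L N).comp
    (algebraMap (IntermediateField.fixedField (V.map r)) L))
    (IntermediateField.fixedField V).toSubring ?_
  intro x
  rintro ⟨v, hv⟩
  change v (algebraMap L N (x : L)) = algebraMap L N (x : L)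
  rw [← res_apply (K := ℚ)]
  have h5 := x.2 ⟨r v, ⟨v, hv, rfl⟩⟩
  exact congrArg (algebraMap L N) h5

lemma exists_level_finset {𝔉 : Set NF} (S : Finset ℕ)
    (h : ∀ p ∈ S, ∃ (L : Type) (_ : Field L) (_ : NumberField L) (_ : IsGalois ℚ L),
      LevelOK p 𝔉 L) (L₁ : Type) [Field L₁] [NumberField L₁] :
    ∃ (N : Type) (_ : Field N) (_ : NumberField N) (_ : IsGalois ℚ N), Nonempty (L₁ →+* N) ∧
      ∀ p ∈ S, LevelOK p 𝔉 N := by
  classical
  induction S using Finset.induction_on with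
  | empty =>
    obtain ⟨N, i1, i2, i3, hN, -⟩ := exists_big L₁ L₁
    exact ⟨N, i1, i2, i3, hN, by simp⟩
  | insert q S _ ih =>
    obtain ⟨N, _, _, _, ⟨f⟩, hN⟩ := ih fun p hp => h p (Finset.mem_insert_of_mem hp)
    obtain ⟨L, _, _, _, hL⟩ := h q (Finset.mem_insert_self _ _)
    obtain ⟨N', i1, i2, i3, ⟨i⟩, ⟨j⟩⟩ := exists_big N L
    refine ⟨N', i1, i2, i3, ⟨i.comp f⟩, fun p hp => ?_⟩
    rcases Finset.mem_insert.mp hp with rfl | hp
    · exact hL.up j
    · exact (hN p hp).up i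

/-- a common level for all primes -/
lemma exists_common_level {P : Set ℕ} {𝔉 : Set NF}
    (h : ∀ p, Adm P p → ∃ (L : Type) (_ : Field L) (_ : NumberField L) (_ : IsGalois ℚ L),
      LevelOK p 𝔉 L) :
    ∃ (L : Type) (_ : Field L) (_ : NumberField L) (_ : IsGalois ℚ L),
      ∀ p, Adm P p → LevelOK p 𝔉 L := by
  classical
  obtain ⟨L₁, _, _, _, h₁⟩ := h 1 (Or.inr rfl)
  let S : Finset ℕ := (Nat.card (L₁ ≃ₐ[ℚ] L₁)).primeFactors.filter (fun p => p ∈ P)
  obtain ⟨N, i1, i2, i3, ⟨i⟩, hN⟩ := exists_level_finset S (fun p hp => by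
    obtain ⟨h1, h2⟩ := Finset.mem_filter.mp hp
    exact h p (Or.inl ⟨h2, Nat.prime_of_mem_primeFactors h1⟩)) L₁
  refine ⟨N, i1, i2, i3, fun p hp => ?_⟩
  rcases hp with ⟨hpP, hp⟩ | rfl
  · by_cases hd : p ∣ Nat.card (L₁ ≃ₐ[ℚ] L₁)
    · exact hN p (Finset.mem_filter.mpr ⟨Nat.mem_primeFactors.mpr
        ⟨hp, hd, Nat.card_pos.ne'⟩, hpP⟩)
    · have h2 : LevelOK p 𝔉 L₁ := by
        intro E hE
        exact h₁ E (hE.one_of_not_dvd hp fun h3 => hd (h3.trans E.card_subgroup_dvd_card))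
      exact h2.up i
  · exact h₁.up i

/-- finitely many fields of the family -/
lemma exists_finite_common {P : Set ℕ} {𝔉 : Set NF} (L : Type) [Field L] [NumberField L]
    (h : ∀ p, Adm P p → LevelOK p 𝔉 L) :
    ∃ T ⊆ 𝔉, T.Finite ∧ ∀ p, Adm P p → LevelOK p T L := by
  have hfin : Finite (Subgroup (L ≃ₐ[ℚ] L)) := inferInstance
  have h1 : ∀ E : {E : Subgroup (L ≃ₐ[ℚ] L) // ∃ p, Adm P p ∧ IsElem p E}, ∃ F ∈ 𝔉,
      Nonempty (F.K →+* IntermediateField.fixedField E.1) := by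
    rintro ⟨E, p, hp, hE⟩
    exact h p hp E hE
  choose F hF hF' using h1
  refine ⟨Set.range F, ?_, Set.finite_range F, ?_⟩
  · rintro _ ⟨E, rfl⟩
    exact hF E
  · intro p hp E hE
    exact ⟨F ⟨E, p, hp, hE⟩, ⟨_, rfl⟩, hF' ⟨E, p, hp, hE⟩⟩

/-- **The criterion** -/
theorem criterion (P : Set ℕ) (𝔉 : Set NF) : List.TFAE [
    Suffices P 𝔉,
    SufficesQ P 𝔉,
    ∀ p, Adm P p → ∀ (Ω : Type) [Field Ω] [CharZero Ω] [Algebra.IsAlgebraic ℚ Ω],
      ProElem p Ω → Meets 𝔉 Ω,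
    ∃ (L : Type) (_ : Field L) (_ : NumberField L) (_ : IsGalois ℚ L),
      ∀ p, Adm P p → LevelOK p 𝔉 L,
    ∃ T ⊆ 𝔉, T.Finite ∧ Suffices P T] := by
  tfae_have 1 → 2 := by
    intro h M _ hM A hA
    exact h M hM A hA ℚ ℚ _ (by
      have h1 := IsChar.lc (1 : (ℚ ≃ₐ[ℚ] ℚ) →* ℂˣ)
      have h2 : lc (1 : (ℚ ≃ₐ[ℚ] ℚ) →* ℂˣ) = fun _ => 1 := by
        funext g
        simp [lc]
      rwa [h2] at h1)
  tfae_have 2 → 3 := fun h p hp Ω _ _ _ hΩ => meets_of_sufficesQ h hp Ω hΩ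
  tfae_have 3 → 4 := fun h => exists_common_level fun p hp => exists_level (h p hp)
  tfae_have 4 → 5 := by
    rintro ⟨L, _, _, _, hL⟩
    obtain ⟨T, hT, hf, h1⟩ := exists_finite_common L hL
    exact ⟨T, hT, hf, suffices_of_level fun p hp => ⟨L, inferInstance, inferInstance,
      inferInstance, h1 p hp⟩⟩
  tfae_have 5 → 1 := by
    rintro ⟨T, hT, -, h⟩ M _ hM A hA
    exact h M hM A fun F hF => hA F (hT hF)
  tfae_finish

/-- **The families of the number fields without embeddings in given fields** -/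
theorem criterion_avoid (P : Set ℕ) {J : Type} [Finite J] (E : J → Type) [∀ j, Field (E j)]
    [∀ j, CharZero (E j)] [∀ j, Algebra.IsAlgebraic ℚ (E j)] :
    Suffices P {F : NF | ∀ j, IsEmpty (F.K →+* E j)} ↔ ∀ p, Adm P p → ∀ j, ¬ ProElem p (E j) := by
  refine ((criterion P _).out 0 2 rfl rfl).trans ?_
  constructor
  · intro h p hp j hj
    obtain ⟨F, hF, hF'⟩ := h p hp (E j) hj
    exact (not_isEmpty_iff.mpr hF') (hF j)
  · intro h p hp Ω _ _ _ hΩ
    by_contra hm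
    obtain ⟨j, ⟨i⟩⟩ := exists_embedding E (Ω := Ω) (by
      intro F _ _ hF
      by_contra hcon
      push Not at hcon
      exact hm ⟨⟨F⟩, hcon, hF⟩)
    exact h p hp j (hΩ.of_hom i)

end Pool.Agent.H37.Stk
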